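import Pool.Agent.PB.Meas
import Pool.Agent.PB.Crit
import Pool.Agent.PB.BK
import Pool.Agent.PB.P.Mix

/-!
# PROJECT PB, Section 10 (intrinsic balls) and general tools for Sections 10 and 12.3
Definitions and general probability tools: independence (`Pr_indep`), locality of events about
`opn p ω ∩ F` (`dep_opn`), the law of one label (`Pr_opn_inter`), the exploration union bound
(`expl_bound`) and the link from edge-disjoint witnesses to `dOcc` (`dOcc_of_sets`).
-/

set_option autoImplicit false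
open MeasureTheory Filter Topology
open scoped ENNReal BigOperators

namespace Pool.Agent.PB.T10

variable {d : ℕ}

/-! ### Section 10: definitions -/

/-- `κ_{p,r}(x) = P_p(0 ↔ x by a path of at most r edges)` -/
noncomputable def kap (p : ℝ) (r : ℕ) (x : V d) : ℝ≥0∞ := Pr d {ω | RchL (opn p ω) r 0 x}

/-- `G_p(r) = E_p |B_r(0)|` -/
noncomputable def Gr (d : ℕ) (p : ℝ) (r : ℕ) : ℝ≥0∞ := ∑' x : V d, kap p r x

/-- the event `rad_F(y) ≥ r` -/
def RadEv (p : ℝ) (F : Set (Sym2 (V d))) (r : ℕ) (y : V d) : Set (Om d) :=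
  {ω | (Sph (opn p ω ∩ F) r y).Nonempty}

/-- `Γ_p(r) = sup_F P_p(rad_F(0) ≥ r)` -/
noncomputable def Gam (d : ℕ) (p : ℝ) (r : ℕ) : ℝ≥0∞ :=
  ⨆ F : Set (Sym2 (V d)), Pr d (RadEv p F r 0)

/-! ### independence -/

theorem Pr_indep {S T : Set (Ix d)} (hST : Disjoint S T) {A B : Set (Om d)}
    (hA : MeasurableSet A) (hB : MeasurableSet B) (hAS : DependsOn (fun ω => ω ∈ A) S)
    (hBT : DependsOn (fun ω => ω ∈ B) T) : Pr d (A ∩ B) = Pr d A * Pr d B :=
  Pr_inter_indep hST hA hB hAS hBT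

/-- an event about the open edges of `F` depends only on the labels of the edges of `F` -/
theorem dep_opn (p : ℝ) (F : Set (Sym2 (V d))) (f : Set (Sym2 (V d)) → Prop) :
    DependsOn (fun ω : Om d => f (opn p ω ∩ F)) (Sum.inl '' F : Set (Ix d)) := by
  intro ω ω' h
  have : opn p ω ∩ F = opn p ω' ∩ F := by
    ext e
    simp only [opn, Set.mem_inter_iff, Set.mem_ofPred_eq]
    constructor
    · rintro ⟨⟨h1, h2⟩, h3⟩
      refine ⟨⟨h1, ?_⟩, h3⟩
      rw [← h (Sum.inl e) ⟨e, h3, rfl⟩]; exact h2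
    · rintro ⟨⟨h1, h2⟩, h3⟩
      refine ⟨⟨h1, ?_⟩, h3⟩
      rw [h (Sum.inl e) ⟨e, h3, rfl⟩]; exact h2
  simp only [this]

/-- general form: an event invariant under changes of the edge set off `F` -/
theorem dep_opn_of {p : ℝ} {F : Set (Sym2 (V d))} {f : Set (Sym2 (V d)) → Prop}
    (h : ∀ O O' : Set (Sym2 (V d)), O ∩ F = O' ∩ F → (f O ↔ f O')) :
    DependsOn (fun ω : Om d => f (opn p ω)) (Sum.inl '' F : Set (Ix d)) := by
  have h1 : ∀ O, f O ↔ f (O ∩ F) := fun O => h O (O ∩ F) (by rw [Set.inter_assoc, Set.inter_self])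
  have h2 : (fun ω : Om d => f (opn p ω)) = fun ω => f (opn p ω ∩ F) := by
    funext ω; exact propext (h1 _)
  rw [h2]; exact dep_opn p F f

theorem DependsOn.inter_ev {ι α : Type*} {A B : Set (ι → α)} {S T : Set ι}
    (hA : DependsOn (fun ω => ω ∈ A) S) (hB : DependsOn (fun ω => ω ∈ B) T) :
    DependsOn (fun ω => ω ∈ A ∩ B) (S ∪ T) := by
  intro x y h
  have h1 := hA (x := x) (y := y) (fun i hi => h i (Or.inl hi))
  have h2 := hB (x := x) (y := y) (fun i hi => h i (Or.inr hi))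
  simp only [Set.mem_inter_iff]
  simp only at h1 h2
  rw [h1, h2]

theorem dep_mono {ι α β : Type*} {f : (ι → α) → β} {S T : Set ι} (h : S ⊆ T)
    (hf : DependsOn f S) : DependsOn f T := fun _ _ hxy => hf fun i hi => hxy i (h hi)

/-! ### the exploration union bound -/

/-- disjoint events `A t ⊆ X`, and `P(A t ∩ D t) ≤ P(A t) c` for all `t`: then
`P(⋃ (A t ∩ D t)) ≤ c P(X)` -/
theorem expl_bound {Ω T : Type*} [MeasurableSpace Ω] (μ : Measure Ω) [Countable T]
    {A D : T → Set Ω} {X : Set Ω} {c : ℝ≥0∞} (mA : ∀ t, MeasurableSet (A t))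
    (hdis : Pairwise (Function.onFun Disjoint A)) (hX : ∀ t, A t ⊆ X)
    (h : ∀ t, μ (A t ∩ D t) ≤ μ (A t) * c) : μ (⋃ t, (A t ∩ D t)) ≤ μ X * c := by
  calc μ (⋃ t, (A t ∩ D t)) ≤ ∑' t, μ (A t ∩ D t) := measure_iUnion_le _
    _ ≤ ∑' t, μ (A t) * c := ENNReal.tsum_le_tsum h
    _ = (∑' t, μ (A t)) * c := ENNReal.tsum_mul_right
    _ = μ (⋃ t, A t) * c := by rw [measure_iUnion hdis mA]
    _ ≤ μ X * c := by gcongr; exact Set.iUnion_subset hX

/-! ### edge-disjoint witnesses and `dOcc` -/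

theorem opn_restr {p : ℝ} {ω : Om d} {S : Set (Ix d)} {e : Sym2 (V d)} (he : e ∈ opn p ω)
    (hS : Sum.inl e ∈ S) : e ∈ opn p (restr S ω) := by
  refine ⟨he.1, ?_⟩
  rw [restr_of_mem ω hS]
  exact he.2

theorem ghost_restr {b : Bool} {h : ℝ} {ω : Om d} {S : Set (Ix d)} {v : V d}
    (hv : v ∈ ghost b h ω) (hS : Sum.inr (v, b) ∈ S) : v ∈ ghost b h (restr S ω) := by
  show ((restr S ω (Sum.inr (v, b)) : unitInterval) : ℝ) ≤ _
  rw [restr_of_mem ω hS]
  exact hv

theorem isUp_opn {p : ℝ} {f : Set (Sym2 (V d)) → Prop}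
    (hf : ∀ O O' : Set (Sym2 (V d)), O ⊆ O' → f O → f O') : IsUp {ω : Om d | f (opn p ω)} := by
  intro ω ω' h hω
  refine hf _ _ ?_ hω
  intro e he
  exact ⟨he.1, le_trans (h (Sum.inl e)) he.2⟩

/-- finite disjoint sets `S j` of open edges witnessing monotone events -/
theorem dOcc_of_sets {k : ℕ} {p : ℝ} {ω : Om d} {f : Fin k → Set (Sym2 (V d)) → Prop}
    (hf : ∀ j O O', O ⊆ O' → f j O → f j O') (S : Fin k → Set (Sym2 (V d)))
    (hS : ∀ j, S j ⊆ opn p ω) (hfin : ∀ j, (S j).Finite)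
    (hdis : Pairwise (Function.onFun Disjoint S)) (h : ∀ j, f j (S j)) :
    ω ∈ dOcc (fun j => {ω : Om d | f j (opn p ω)}) := by
  classical
  refine ⟨fun j => (hfin j).toFinset.image Sum.inl, ?_, ?_⟩
  · intro i j hij
    have := hdis hij
    simp only [Function.onFun] at this ⊢
    rw [Finset.disjoint_left]
    intro a ha hb
    simp only [Finset.mem_image, Set.Finite.mem_toFinset] at ha hb
    obtain ⟨e, he, rfl⟩ := ha
    obtain ⟨e', he', h'⟩ := hb
    cases Sum.inl_injective h'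
    exact Set.disjoint_left.1 this he he'
  · intro j
    refine hf j _ _ ?_ (h j)
    intro e he
    exact opn_restr (hS j he) (by simpa using he)

end Pool.Agent.PB.T10
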