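import Pool.Agent.PB.T.BallDefs

/-!
# PROJECT PB, module T-BallB: `G_split`, `tree_bd` (plan in T/BallDefs.lean)
-/

set_option autoImplicit false
open MeasureTheory Filter Topology
open scoped ENNReal BigOperators

namespace Pool.Agent.PB.T10

variable {d : ℕ}

private theorem meas_rch (p : ℝ) (x y : V d) : MeasurableSet {ω : Om d | Rch (opn p ω) x y} :=
  (opn_MES p).rch x y

private theorem meas_rchL (p : ℝ) (r : ℕ) (x y : V d) : MeasurableSet {ω : Om d | RchL (opn p ω) r x y} :=
  (opn_MES p).rchL r x y

private theorem tau_zero_eq (p : ℝ) : tau (d := d) p 0 = 1 := by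
  unfold tau
  have : {ω : Om d | Rch (opn p ω) 0 0} = Set.univ := by
    ext ω
    exact ⟨fun _ => trivial, fun _ => Rch.refl _ _⟩
  rw [this]
  exact measure_univ

private theorem two_bd {p : ℝ} (hT : Trans d p) (r : ℕ) (v z x : V d) :
    Pr d (dOcc (fun j : Fin 2 => {ω : Om d | (![fun O => Rch O v z, fun O => RchL O r z x] :
      Fin 2 → Set (Sym2 (V d)) → Prop) j (opn p ω)})) ≤ tau p (z - v) * kap p r (x - z) := by
  refine (bk_Pr ?_ ?_).trans ?_
  · intro j
    fin_cases j
    · exact meas_rch p v z
    · exact meas_rchL p r z x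
  · intro j
    fin_cases j
    · exact isUp_opn (f := fun O => Rch O v z) (fun O O' h h1 => Rch.mono h h1)
    · exact isUp_opn (f := fun O => RchL O r z x) (fun O O' h h1 => RchL.mono h h1)
  · rw [Fin.prod_univ_two]
    apply le_of_eq
    rw [← hT.rch v z, ← hT.rchL r z x]
    rfl

private theorem point_bd {p : ℝ} (hT : Trans d p) (r : ℕ) (K : Finset (V d)) (v x : V d) :
    Pr d {ω : Om d | RchL (opn p ω) r v x} ≤
      kapK p r K v x + ∑ z ∈ K, tau p (z - v) * kap p r (x - z) := by
  have hsub : {ω : Om d | RchL (opn p ω) r v x} ⊆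
      {ω : Om d | RchL ((Del.ofSet (K : Set (V d))).rem (opn p ω)) r v x} ∪
        ⋃ z ∈ K, dOcc (fun j : Fin 2 => {ω : Om d | (![fun O => Rch O v z, fun O => RchL O r z x] :
          Fin 2 → Set (Sym2 (V d)) → Prop) j (opn p ω)}) := by
    intro ω hω
    by_cases hn : RchL ((Del.ofSet (K : Set (V d))).rem (opn p ω)) r v x
    · exact Or.inl hn
    right
    obtain ⟨z, hz, S1, S2, h1, h2, f1, f2, hd, c1, c2⟩ := detour (K := (K : Set (V d))) hω hn
    rw [Set.mem_iUnion₂]
    refine ⟨z, hz, ?_⟩
    apply dOcc_of_sets (f := (![fun O => Rch O v z, fun O => RchL O r z x] :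
      Fin 2 → Set (Sym2 (V d)) → Prop)) (p := p) ?_ ![S1, S2] ?_ ?_ ?_ ?_
    · intro j O O' hO
      fin_cases j
      · exact fun h => Rch.mono hO h
      · exact fun h => RchL.mono hO h
    · intro j
      fin_cases j
      · exact h1
      · exact h2
    · intro j
      fin_cases j
      · exact f1
      · exact f2
    · intro i j hij
      fin_cases i <;> fin_cases j
      · exact absurd rfl hij
      · exact hd
      · exact hd.symm
      · exact absurd rfl hij
    · intro j
      fin_cases j
      · exact c1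
      · exact c2
  refine (measure_mono hsub).trans ((measure_union_le _ _).trans ?_)
  refine add_le_add le_rfl ?_
  refine (measure_biUnion_finset_le _ _).trans ?_
  exact Finset.sum_le_sum fun z _ => two_bd hT r v z x

private theorem Gr_shift {p : ℝ} (r : ℕ) (v : V d) : ∑' x : V d, kap p r (x - v) = Gr d p r := by
  unfold Gr
  exact (Equiv.subRight v).tsum_eq (fun x => kap p r x)

theorem G_split {p : ℝ} (hT : Trans d p) (r : ℕ) (K : Finset (V d)) (v : V d) :
    Gr d p r ≤ (if v ∈ K then 0 else ∑' x : V d, kapK p r K v x) +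
      Gr d p r * ∑ z ∈ K, tau p (z - v) := by
  split_ifs with hv
  · rw [zero_add]
    have h1 : (1 : ℝ≥0∞) ≤ ∑ z ∈ K, tau p (z - v) := by
      calc (1 : ℝ≥0∞) = tau p (v - v) := by rw [sub_self, tau_zero_eq]
        _ ≤ ∑ z ∈ K, tau p (z - v) :=
          Finset.single_le_sum (f := fun z => tau p (z - v)) (fun _ _ => by positivity) hv
    calc Gr d p r = Gr d p r * 1 := (mul_one _).symm
      _ ≤ _ := mul_le_mul' le_rfl h1
  · calc Gr d p r = ∑' x : V d, kap p r (x - v) := (Gr_shift r v).symm
      _ = ∑' x : V d, Pr d {ω : Om d | RchL (opn p ω) r v x} := by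
          refine tsum_congr fun x => ?_
          rw [hT.rchL]
      _ ≤ ∑' x : V d, (kapK p r K v x + ∑ z ∈ K, tau p (z - v) * kap p r (x - z)) :=
          ENNReal.tsum_le_tsum fun x => point_bd hT r K v x
      _ = ∑' x : V d, kapK p r K v x + ∑' x : V d, ∑ z ∈ K, tau p (z - v) * kap p r (x - z) :=
          ENNReal.tsum_add
      _ = ∑' x : V d, kapK p r K v x + Gr d p r * ∑ z ∈ K, tau p (z - v) := by
          congr 1
          rw [Summable.tsum_finsetSum (fun _ _ => ENNReal.summable), Finset.mul_sum]
          refine Finset.sum_congr rfl fun z _ => ?_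
          rw [ENNReal.tsum_mul_left, Gr_shift, mul_comm]

theorem tree_bd {p : ℝ} (hT : Trans d p) (r : ℕ) (u z : V d) :
    Pr d {ω | RchL (opn p ω) r (0 : V d) u ∧ Rch (opn p ω) 0 z} ≤
      ∑' w : V d, kap p r w * tau p (u - w) * tau p (z - w) := by
  let f : V d → Fin 3 → Set (Sym2 (V d)) → Prop := fun w =>
    ![fun O => RchL O r 0 w, fun O => Rch O w u, fun O => Rch O w z]
  have hsub : {ω : Om d | RchL (opn p ω) r (0 : V d) u ∧ Rch (opn p ω) 0 z} ⊆
      ⋃ w : V d, dOcc (fun j : Fin 3 => {ω : Om d | f w j (opn p ω)}) := by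
    rintro ω ⟨hω1, hω2⟩
    obtain ⟨w, S1, S2, S3, h1, h2, h3, f1, f2, f3, d12, d13, d23, c1, c2, c3⟩ := tree_len hω1 hω2
    rw [Set.mem_iUnion]
    refine ⟨w, ?_⟩
    apply dOcc_of_sets (f := f w) (p := p) ?_ ![S1, S2, S3] ?_ ?_ ?_ ?_
    · intro j O O' hO
      fin_cases j
      · exact fun h => RchL.mono hO h
      · exact fun h => Rch.mono hO h
      · exact fun h => Rch.mono hO h
    · intro j
      fin_cases j
      · exact h1
      · exact h2
      · exact h3
    · intro j
      fin_cases j
      · exact f1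
      · exact f2
      · exact f3
    · intro i j hij
      fin_cases i <;> fin_cases j
      · exact absurd rfl hij
      · exact d12
      · exact d13
      · exact d12.symm
      · exact absurd rfl hij
      · exact d23
      · exact d13.symm
      · exact d23.symm
      · exact absurd rfl hij
    · intro j
      fin_cases j
      · exact c1
      · exact c2
      · exact c3
  refine (measure_mono hsub).trans ((measure_iUnion_le _).trans ?_)
  refine ENNReal.tsum_le_tsum fun w => ?_
  refine (bk_Pr ?_ ?_).trans ?_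
  · intro j
    fin_cases j
    · exact meas_rchL p r 0 w
    · exact meas_rch p w u
    · exact meas_rch p w z
  · intro j
    fin_cases j
    · exact isUp_opn (f := fun O => RchL O r 0 w) (fun O O' h h1 => RchL.mono h h1)
    · exact isUp_opn (f := fun O => Rch O w u) (fun O O' h h1 => Rch.mono h h1)
    · exact isUp_opn (f := fun O => Rch O w z) (fun O O' h h1 => Rch.mono h h1)
  · rw [Fin.prod_univ_three]
    apply le_of_eq
    rw [← hT.rch w u, ← hT.rch w z]
    rfl

end Pool.Agent.PB.T10
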