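import Pool.Agent.PB.T.BallA
import Pool.Agent.PB.T.BallB

/-!
# PROJECT PB, module T-Ball: `ball_step`, `Gr_le` (plan in T/BallDefs.lean)
`Gr_le`: `RchL (opn p ω) r 0 x` implies `|x i| ≤ r` for all `i` (induction: an edge of `lat d` changes
the vertex by a vector of `ℓ¹` norm 1), so `kap p r x ≤ 1` and `= 0` off the box; the box has
`(2r+1)^d` points (`Fintype.piFinset (fun _ => Finset.Icc (-r) r)`).
-/

set_option autoImplicit false
open MeasureTheory Filter Topology
open scoped ENNReal BigOperators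

namespace Pool.Agent.PB.T10

variable {d : ℕ}

/-- `κ_r(u) ≤ Σ_K P(AuK u K)` when clusters are a.s. finite -/
theorem ball_kap_le {p : ℝ} (hth : theta d p = 0) (r : ℕ) (u : V d) :
    kap p r u ≤ ∑' K : Finset (V d), Pr d (AuK p r u K) := by
  have hsub : {ω : Om d | RchL (opn p ω) r 0 u} ⊆
      (⋃ K : Finset (V d), AuK p r u K) ∪ {ω | (Cl (opn p ω) (0 : V d)).Infinite} := by
    intro ω hω
    by_cases hf : (Cl (opn p ω) (0 : V d)).Finite
    · left
      exact Set.mem_iUnion.2 ⟨hf.toFinset, hω, by simp⟩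
    · right
      exact hf
  have h0 : Pr d {ω | (Cl (opn p ω) (0 : V d)).Infinite} = 0 := hth
  calc kap p r u ≤ Pr d ((⋃ K : Finset (V d), AuK p r u K) ∪
        {ω | (Cl (opn p ω) (0 : V d)).Infinite}) := measure_mono hsub
    _ ≤ Pr d (⋃ K : Finset (V d), AuK p r u K) +
        Pr d {ω | (Cl (opn p ω) (0 : V d)).Infinite} := measure_union_le _ _
    _ = Pr d (⋃ K : Finset (V d), AuK p r u K) := by rw [h0, add_zero]
    _ ≤ ∑' K : Finset (V d), Pr d (AuK p r u K) := measure_iUnion_le _

theorem ball_meas (p : ℝ) (r : ℕ) (u : V d) (K : Finset (V d)) :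
    MeasurableSet (AuK p r u K) :=
  ((opn_MES p).rchL r 0 u).inter (((opn_MES p).cl 0).eq_set _)

theorem ball_sum_mem (p : ℝ) (r : ℕ) (u z : V d) :
    ∑' K : Finset (V d), (if z ∈ K then Pr d (AuK p r u K) else 0) ≤
      Pr d {ω | RchL (opn p ω) r (0 : V d) u ∧ Rch (opn p ω) 0 z} := by
  classical
  let B : Finset (V d) → Set (Om d) := fun K => if z ∈ K then AuK p r u K else ∅
  have h1 : ∀ K, (if z ∈ K then Pr d (AuK p r u K) else 0) = Pr d (B K) := by
    intro K
    by_cases h : z ∈ K <;> simp [B, h]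
  have hB : ∀ K, MeasurableSet (B K) := by
    intro K
    by_cases h : z ∈ K
    · simp only [B, h, if_true]
      exact ball_meas p r u K
    · simp [B, h]
  have hmem : ∀ K ω, ω ∈ B K → z ∈ K ∧ ω ∈ AuK p r u K := by
    intro K ω h
    by_cases hz : z ∈ K
    · simp only [B, hz, if_true] at h
      exact ⟨hz, h⟩
    · simp [B, hz] at h
  rw [tsum_congr h1, ← measure_iUnion _ hB]
  · refine measure_mono ?_
    intro ω hω
    obtain ⟨K, hK⟩ := Set.mem_iUnion.1 hω
    obtain ⟨hz, h2, h3⟩ := hmem K ω hK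
    refine ⟨h2, ?_⟩
    have : z ∈ Cl (opn p ω) (0 : V d) := by
      rw [h3]
      exact_mod_cast hz
    exact this
  · intro K L hKL
    simp only [Function.onFun]
    rw [Set.disjoint_left]
    intro ω hK hL
    apply hKL
    have h3 := (hmem K ω hK).2.2
    have h4 := (hmem L ω hL).2.2
    exact_mod_cast h3.symm.trans h4

theorem ball_conv_dlt (f : V d → ℝ≥0∞) : conv f dlt = f := by
  funext x
  unfold conv dlt
  rw [tsum_eq_single x]
  · simp
  · intro y hy
    have : x - y ≠ 0 := sub_ne_zero.2 (Ne.symm hy)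
    simp [this]

theorem ball_cpow3 (f : V d → ℝ≥0∞) (x : V d) :
    cpow f 3 x = ∑' a, f a * ∑' b, f b * f (x - a - b) := by
  show conv f (conv f (conv f dlt)) x = _
  rw [ball_conv_dlt]
  rfl

theorem ball_T {p : ℝ} (hT : Trans d p) (w : V d) :
    ∑' u : V d, ∑' v : V d, ∑' z : V d,
      tau p (u - w) * J p (v - u) * tau p (z - v) * tau p (z - w) =
    conv (J p) (cpow (tau (d := d) p) 3) 0 := by
  have h1 : ∑' u : V d, ∑' v : V d, ∑' z : V d,
      tau p (u - w) * J p (v - u) * tau p (z - v) * tau p (z - w) =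
      ∑' a : V d, ∑' y : V d, ∑' b : V d,
        tau p a * J p y * tau p b * tau p (0 - y - a - b) := by
    rw [← (Equiv.addRight w).tsum_eq]
    refine tsum_congr fun a => ?_
    rw [← (Equiv.addRight (a + w)).tsum_eq]
    refine tsum_congr fun y => ?_
    rw [← (Equiv.addRight (y + (a + w))).tsum_eq]
    refine tsum_congr fun b => ?_
    simp only [Equiv.coe_addRight]
    rw [add_sub_cancel_right, add_sub_cancel_right, add_sub_cancel_right]
    rw [← hT.even (0 - y - a - b)]
    congr 2
    abel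
  rw [h1, ENNReal.tsum_comm]
  unfold conv
  refine tsum_congr fun y => ?_
  rw [ball_cpow3, ← ENNReal.tsum_mul_left]
  refine tsum_congr fun a => ?_
  rw [← ENNReal.tsum_mul_left, ← ENNReal.tsum_mul_left]
  refine tsum_congr fun b => ?_
  ring

theorem ball_part1 {p : ℝ} (hp0 : 0 ≤ p) (hp1 : p ≤ 1) (r : ℕ) :
    ∑' u : V d, ∑' v : V d, ∑' K : Finset (V d),
      J p (v - u) * Pr d (AuK p r u K) * (if v ∈ K then 0 else ∑' x : V d, kapK p r K v x) ≤
    (2 * r + 1 : ℕ) * Gr d p (2 * r + 1) := by
  have h1 : ∀ (u v : V d) (K : Finset (V d)),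
      J p (v - u) * Pr d (AuK p r u K) * (if v ∈ K then 0 else ∑' x : V d, kapK p r K v x) =
      ∑' x : V d, (if v ∈ K then 0 else J p (v - u) * Pr d (AuK p r u K) * kapK p r K v x) := by
    intro u v K
    by_cases h : v ∈ K
    · simp [h]
    · simp only [h, if_false]
      rw [ENNReal.tsum_mul_left]
  have h2 : ∑' u : V d, ∑' v : V d, ∑' K : Finset (V d),
      J p (v - u) * Pr d (AuK p r u K) * (if v ∈ K then 0 else ∑' x : V d, kapK p r K v x) =
      ∑' x : V d, ∑' u : V d, ∑' v : V d, ∑' K : Finset (V d),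
        (if v ∈ K then 0 else J p (v - u) * Pr d (AuK p r u K) * kapK p r K v x) := by
    rw [ENNReal.tsum_comm (α := V d) (β := V d) (f := fun x u => ∑' v : V d, ∑' K : Finset (V d),
        (if v ∈ K then 0 else J p (v - u) * Pr d (AuK p r u K) * kapK p r K v x))]
    refine tsum_congr fun u => ?_
    rw [ENNReal.tsum_comm (α := V d) (β := V d) (f := fun x v => ∑' K : Finset (V d),
        (if v ∈ K then 0 else J p (v - u) * Pr d (AuK p r u K) * kapK p r K v x))]
    refine tsum_congr fun v => ?_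
    rw [ENNReal.tsum_comm (α := V d) (β := Finset (V d)) (f := fun x K =>
        (if v ∈ K then 0 else J p (v - u) * Pr d (AuK p r u K) * kapK p r K v x))]
    exact tsum_congr fun K => h1 u v K
  rw [h2]
  calc ∑' x : V d, ∑' u : V d, ∑' v : V d, ∑' K : Finset (V d),
        (if v ∈ K then 0 else J p (v - u) * Pr d (AuK p r u K) * kapK p r K v x)
      ≤ ∑' x : V d, ∑' u : V d, ∑' v : V d,
        Pr d {ω | (u, v) ∈ sepPairs (opn p ω) r (0 : V d) x} :=
        ENNReal.tsum_le_tsum fun x => ENNReal.tsum_le_tsum fun u => ENNReal.tsum_le_tsum fun v =>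
          ball_lower p hp0 hp1 r u v x
    _ ≤ ∑' x : V d, ((2 * r + 1 : ℕ) : ℝ≥0∞) * kap p (2 * r + 1) x :=
        ENNReal.tsum_le_tsum fun x => ball_count p r x
    _ = (2 * r + 1 : ℕ) * Gr d p (2 * r + 1) := by
        rw [ENNReal.tsum_mul_left]
        rfl

theorem ball_sum_finset (K : Finset (V d)) (f : V d → ℝ≥0∞) :
    ∑ z ∈ K, f z = ∑' z : V d, (if z ∈ K then f z else 0) := by
  rw [tsum_eq_sum (s := K) (fun z hz => by simp [hz])]
  exact Finset.sum_congr rfl fun z hz => by simp [hz]

theorem ball_part2 {p : ℝ} (hT : Trans d p) (r : ℕ) :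
    ∑' u : V d, ∑' v : V d, ∑' K : Finset (V d),
      J p (v - u) * Pr d (AuK p r u K) * (∑ z ∈ K, tau p (z - v)) ≤
    Gr d p r * sm d p 3 := by
  have h1 : ∀ (u v : V d), ∑' K : Finset (V d),
      J p (v - u) * Pr d (AuK p r u K) * (∑ z ∈ K, tau p (z - v)) =
      ∑' z : V d, J p (v - u) * tau p (z - v) *
        ∑' K : Finset (V d), (if z ∈ K then Pr d (AuK p r u K) else 0) := by
    intro u v
    have : ∀ K : Finset (V d), J p (v - u) * Pr d (AuK p r u K) * (∑ z ∈ K, tau p (z - v)) =
        ∑' z : V d, J p (v - u) * tau p (z - v) * (if z ∈ K then Pr d (AuK p r u K) else 0) := by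
      intro K
      rw [ball_sum_finset, ← ENNReal.tsum_mul_left]
      refine tsum_congr fun z => ?_
      by_cases h : z ∈ K
      · simp only [h, if_true]; ring
      · simp [h]
    rw [tsum_congr this, ENNReal.tsum_comm]
    refine tsum_congr fun z => ?_
    rw [ENNReal.tsum_mul_left]
  calc ∑' u : V d, ∑' v : V d, ∑' K : Finset (V d),
      J p (v - u) * Pr d (AuK p r u K) * (∑ z ∈ K, tau p (z - v))
      = ∑' u : V d, ∑' v : V d, ∑' z : V d, J p (v - u) * tau p (z - v) *
        ∑' K : Finset (V d), (if z ∈ K then Pr d (AuK p r u K) else 0) :=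
        tsum_congr fun u => tsum_congr fun v => h1 u v
    _ ≤ ∑' u : V d, ∑' v : V d, ∑' z : V d, J p (v - u) * tau p (z - v) *
        ∑' w : V d, kap p r w * tau p (u - w) * tau p (z - w) := by
        refine ENNReal.tsum_le_tsum fun u => ENNReal.tsum_le_tsum fun v =>
          ENNReal.tsum_le_tsum fun z => ?_
        exact mul_le_mul_right ((ball_sum_mem p r u z).trans (tree_bd hT r u z)) _
    _ = ∑' u : V d, ∑' v : V d, ∑' z : V d, ∑' w : V d,
        kap p r w * (tau p (u - w) * J p (v - u) * tau p (z - v) * tau p (z - w)) := by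
        refine tsum_congr fun u => tsum_congr fun v => tsum_congr fun z => ?_
        rw [← ENNReal.tsum_mul_left]
        refine tsum_congr fun w => ?_
        ring
    _ = ∑' u : V d, ∑' v : V d, ∑' w : V d, ∑' z : V d,
        kap p r w * (tau p (u - w) * J p (v - u) * tau p (z - v) * tau p (z - w)) :=
        tsum_congr fun u => tsum_congr fun v => ENNReal.tsum_comm
    _ = ∑' u : V d, ∑' w : V d, ∑' v : V d, ∑' z : V d,
        kap p r w * (tau p (u - w) * J p (v - u) * tau p (z - v) * tau p (z - w)) :=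
        tsum_congr fun u => ENNReal.tsum_comm
    _ = ∑' w : V d, ∑' u : V d, ∑' v : V d, ∑' z : V d,
        kap p r w * (tau p (u - w) * J p (v - u) * tau p (z - v) * tau p (z - w)) :=
        ENNReal.tsum_comm
    _ = ∑' w : V d, kap p r w * conv (J p) (cpow (tau (d := d) p) 3) 0 := by
        refine tsum_congr fun w => ?_
        rw [← ball_T hT w, ← ENNReal.tsum_mul_left]
        refine tsum_congr fun u => ?_
        rw [← ENNReal.tsum_mul_left]
        refine tsum_congr fun v => ?_
        rw [← ENNReal.tsum_mul_left]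
    _ = Gr d p r * conv (J p) (cpow (tau (d := d) p) 3) 0 := by
        rw [ENNReal.tsum_mul_right]
        rfl
    _ ≤ Gr d p r * sm d p 3 := by
        refine mul_le_mul_right ?_ _
        exact le_iSup (fun x => conv (J p) (cpow (tau (d := d) p) 3) x) 0

theorem ball_step {p : ℝ} (hp0 : 0 ≤ p) (hp1 : p ≤ 1) (hT : Trans d p) (hth : theta d p = 0)
    (r : ℕ) :
    nrm (J (d := d) p) * (Gr d p r) ^ 2 ≤ (2 * r + 1 : ℕ) * Gr d p (2 * r + 1) +
      sm d p 3 * (Gr d p r) ^ 2 := by
  have hJ : ∀ u : V d, ∑' v : V d, J p (v - u) = nrm (J (d := d) p) := by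
    intro u
    exact (Equiv.subRight u).tsum_eq (fun y => J (d := d) p y)
  have h1 : nrm (J (d := d) p) * (Gr d p r) ^ 2 =
      ∑' u : V d, ∑' v : V d, J p (v - u) * kap p r u * Gr d p r := by
    have : ∀ u : V d, ∑' v : V d, J p (v - u) * kap p r u * Gr d p r =
        kap p r u * (nrm (J (d := d) p) * Gr d p r) := by
      intro u
      rw [ENNReal.tsum_mul_right, ENNReal.tsum_mul_right, hJ u]
      ring
    rw [tsum_congr this, ENNReal.tsum_mul_right]
    have : ∑' u : V d, kap p r u = Gr d p r := rfl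
    rw [this]
    ring
  have h2 : ∀ u v : V d, J p (v - u) * kap p r u * Gr d p r ≤
      ∑' K : Finset (V d), J p (v - u) * Pr d (AuK p r u K) * Gr d p r := by
    intro u v
    rw [ENNReal.tsum_mul_right, ENNReal.tsum_mul_left]
    exact mul_le_mul_left (mul_le_mul_right (ball_kap_le hth r u) _) _
  have h3 : ∀ (u v : V d) (K : Finset (V d)), J p (v - u) * Pr d (AuK p r u K) * Gr d p r ≤
      J p (v - u) * Pr d (AuK p r u K) * (if v ∈ K then 0 else ∑' x : V d, kapK p r K v x) +
      Gr d p r * (J p (v - u) * Pr d (AuK p r u K) * (∑ z ∈ K, tau p (z - v))) := by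
    intro u v K
    calc J p (v - u) * Pr d (AuK p r u K) * Gr d p r
        ≤ J p (v - u) * Pr d (AuK p r u K) *
          ((if v ∈ K then 0 else ∑' x : V d, kapK p r K v x) +
            Gr d p r * ∑ z ∈ K, tau p (z - v)) := mul_le_mul_right (G_split hT r K v) _
      _ = _ := by ring
  rw [h1]
  calc ∑' u : V d, ∑' v : V d, J p (v - u) * kap p r u * Gr d p r
      ≤ ∑' u : V d, ∑' v : V d, ∑' K : Finset (V d),
        (J p (v - u) * Pr d (AuK p r u K) * (if v ∈ K then 0 else ∑' x : V d, kapK p r K v x) +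
        Gr d p r * (J p (v - u) * Pr d (AuK p r u K) * (∑ z ∈ K, tau p (z - v)))) :=
        ENNReal.tsum_le_tsum fun u => ENNReal.tsum_le_tsum fun v =>
          (h2 u v).trans (ENNReal.tsum_le_tsum fun K => h3 u v K)
    _ = ∑' u : V d, ∑' v : V d, ∑' K : Finset (V d),
        J p (v - u) * Pr d (AuK p r u K) * (if v ∈ K then 0 else ∑' x : V d, kapK p r K v x) +
        Gr d p r * ∑' u : V d, ∑' v : V d, ∑' K : Finset (V d),
          J p (v - u) * Pr d (AuK p r u K) * (∑ z ∈ K, tau p (z - v)) := by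
        rw [← ENNReal.tsum_mul_left, ← ENNReal.tsum_add]
        refine tsum_congr fun u => ?_
        rw [← ENNReal.tsum_mul_left, ← ENNReal.tsum_add]
        refine tsum_congr fun v => ?_
        rw [← ENNReal.tsum_mul_left, ← ENNReal.tsum_add]
    _ ≤ (2 * r + 1 : ℕ) * Gr d p (2 * r + 1) + Gr d p r * (Gr d p r * sm d p 3) :=
        add_le_add (ball_part1 hp0 hp1 r) (mul_le_mul_right (ball_part2 hT r) _)
    _ = (2 * r + 1 : ℕ) * Gr d p (2 * r + 1) + sm d p 3 * (Gr d p r) ^ 2 := by
        congr 1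
        ring

/-- a path of length `≤ r` stays in the box -/
theorem ball_in_box {p : ℝ} {ω : Om d} {r : ℕ} {x : V d} (h : RchL (opn p ω) r (0 : V d) x) :
    ∀ i, |x i| ≤ (r : ℤ) := by
  induction r generalizing x with
  | zero =>
    intro i
    have : (0 : V d) = x := h
    subst this
    simp
  | succ n ih =>
    intro i
    rcases h with h | ⟨z, hz, hzx⟩
    · have := ih h i
      push_cast
      linarith
    · have h1 := ih hz i
      have h2 : l1 (x - z) = 1 := hzx.1
      have h3 : |(x - z) i| ≤ 1 := by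
        rw [← h2]
        unfold l1
        exact Finset.single_le_sum (f := fun i => |(x - z) i|) (fun j _ => abs_nonneg _)
          (Finset.mem_univ i)
      have h4 : x i = z i + (x - z) i := by
        rw [Pi.sub_apply]; ring
      rw [h4]
      push_cast
      exact (abs_add_le _ _).trans (add_le_add h1 h3)

/-- trivial bound -/
theorem Gr_le (p : ℝ) (r : ℕ) : Gr d p r ≤ ENNReal.ofReal ((2 * (r : ℝ) + 1) ^ d) := by
  classical
  let B : Finset (V d) := Fintype.piFinset (fun _ : Fin d => Finset.Icc (-(r : ℤ)) r)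
  have hout : ∀ x : V d, x ∉ B → kap p r x = 0 := by
    intro x hx
    have : {ω : Om d | RchL (opn p ω) r 0 x} = ∅ := by
      refine Set.eq_empty_of_forall_notMem fun ω hω => hx ?_
      rw [Fintype.mem_piFinset]
      intro i
      rw [Finset.mem_Icc]
      exact abs_le.1 (ball_in_box hω i)
    unfold kap
    rw [this]
    exact measure_empty
  have hcard : B.card = (2 * r + 1) ^ d := by
    simp only [B]
    rw [Fintype.card_piFinset]
    simp only [Int.card_Icc, Finset.prod_const, Finset.card_univ, Fintype.card_fin]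
    congr 1
    omega
  unfold Gr
  rw [tsum_eq_sum (s := B) (fun x hx => hout x hx)]
  calc ∑ x ∈ B, kap p r x ≤ ∑ x ∈ B, (1 : ℝ≥0∞) := Finset.sum_le_sum fun x _ => prob_le_one
    _ = (B.card : ℝ≥0∞) := by simp
    _ = ((2 * r + 1) ^ d : ℕ) := by rw [hcard]
    _ = ENNReal.ofReal ((2 * (r : ℝ) + 1) ^ d) := by
        rw [← ENNReal.ofReal_natCast]
        congr 1
        push_cast
        ring
    _ ≤ _ := le_rfl

end Pool.Agent.PB.T10
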