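import Mathlib

/-!
# PROJECT PB, module T-Num: two numerical recursions (MATHLIB ONLY, Section 10)

PLAN `kn_num`. Let `a = 3 (C + 1)`, `A = a^3` (so `A ≥ 1`). Claim `g (3^j) ≤ A / 3^j` by induction.
`j = 0`: `g ≤ 1 ≤ A`. Step with `r = 3^j`: put `al = a^(-4)`, `m = ⌊al r⌋₊`, `n = ⌈al r^2⌉₊` (`n ≥ 1`).
`n ≤ r (m+1)`: `al r^2 ≤ r (al r) ≤ r (m+1)` and the right side is a natural number.
`t n ≤ C / sqrt n ≤ C / sqrt (al r^2) = C a^2 / r`; `m g(r)^2 ≤ al r (A/r)^2 = a^2 / r`.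
Sum `= (C+1) a^2 / r = a^3/(3 r) = A / 3^(j+1)`. For general `r ≥ 1` take `j = Nat.log 3 r`:
`3^j ≤ r < 3^(j+1)`, `g r ≤ g (3^j) ≤ A/3^j ≤ 3 A / r`. So `C' = 3 A`.

PLAN `ball_num`. By contradiction: suppose `g r0 > K (r0+1)` with `K = 8 / c`. Let `r_{j+1} = 2 r_j + 1`,
so `r_j + 1 = 2^j (r0+1)`; put `b_j = (c/4) g(r_j)/(r_j+1)`. Then `b_0 ≥ 2` and `b_{j+1} ≥ b_j^2`
(from `c g(r)^2 ≤ (2r+1) g(2r+1)` and `2r+1 ≤ 2(r+1)`), hence `b_j ≥ 2^(2^j)`; but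
`b_j ≤ (c/4) (2 r_j+1)^d ≤ (c/4) (2^(j+1) (r0+1))^d`, impossible for large `j`
(e.g. `2^(2^j)` beats `c * (2^(j+1)(r0+1))^d`: take logs / `tendsto_pow_const_div_const_pow...`,
or: `2^j ≥ d (j+1) + M` eventually).
-/

set_option autoImplicit false
open Filter Topology

namespace Pool.Agent.PB.T10

/-- the Kozma-Nachmias recursion -/
theorem kn_num {g t : ℕ → ℝ} {C : ℝ} (hC : 0 ≤ C) (g0 : ∀ r, 0 ≤ g r) (g1 : ∀ r, g r ≤ 1)
    (anti : Antitone g) (ht : ∀ n : ℕ, 1 ≤ n → t n ≤ C / Real.sqrt n)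
    (step : ∀ r m n : ℕ, 1 ≤ r → n ≤ r * (m + 1) → g (3 * r) ≤ t n + m * g r ^ 2) :
    ∃ C' : ℝ, 0 < C' ∧ ∀ r : ℕ, 1 ≤ r → g r ≤ C' / r := by
  obtain ⟨a, ha⟩ : ∃ a : ℝ, a = 3 * (C + 1) := ⟨_, rfl⟩
  have ha3 : 3 ≤ a := by linarith
  have ha0 : 0 < a := by linarith
  have hA1 : 1 ≤ a ^ 3 := one_le_pow₀ (by linarith)
  have key : ∀ j : ℕ, g (3 ^ j) ≤ a ^ 3 / 3 ^ j := by
    intro j
    induction j with
    | zero =>
      rw [pow_zero, pow_zero, div_one]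
      exact (g1 1).trans hA1
    | succ j ih =>
      have hR : (0 : ℝ) < 3 ^ j := by positivity
      obtain ⟨m, hm⟩ : ∃ m : ℕ, m = ⌊(3 : ℝ) ^ j / a ^ 4⌋₊ := ⟨_, rfl⟩
      obtain ⟨n, hn⟩ : ∃ n : ℕ, n = ⌈((3 : ℝ) ^ j) ^ 2 / a ^ 4⌉₊ := ⟨_, rfl⟩
      have hm1 : (m : ℝ) ≤ 3 ^ j / a ^ 4 := by
        rw [hm]
        exact Nat.floor_le (by positivity)
      have hm2 : (3 : ℝ) ^ j / a ^ 4 ≤ m + 1 := by
        rw [hm]
        exact (Nat.lt_floor_add_one _).le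
      have hn1 : ((3 : ℝ) ^ j) ^ 2 / a ^ 4 ≤ n := by
        rw [hn]
        exact Nat.le_ceil _
      have hn2 : 1 ≤ n := by
        rw [hn]
        exact Nat.one_le_iff_ne_zero.2 (Nat.ceil_pos.2 (by positivity)).ne'
      have hn3 : n ≤ 3 ^ j * (m + 1) := by
        rw [hn, Nat.ceil_le]
        push_cast
        calc ((3 : ℝ) ^ j) ^ 2 / a ^ 4 = 3 ^ j * (3 ^ j / a ^ 4) := by ring
          _ ≤ 3 ^ j * ((m : ℝ) + 1) := mul_le_mul_of_nonneg_left hm2 hR.le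
      have h1 := step (3 ^ j) m n (Nat.one_le_pow _ _ (by norm_num)) hn3
      have h2 : t n ≤ C * a ^ 2 / 3 ^ j := by
        refine (ht n hn2).trans ?_
        have h3 : (3 : ℝ) ^ j / a ^ 2 ≤ Real.sqrt n := by
          apply Real.le_sqrt_of_sq_le
          calc ((3 : ℝ) ^ j / a ^ 2) ^ 2 = (3 ^ j) ^ 2 / a ^ 4 := by
                rw [div_pow]
                ring
            _ ≤ (n : ℝ) := hn1
        calc C / Real.sqrt n ≤ C / (3 ^ j / a ^ 2) := by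
              apply div_le_div_of_nonneg_left hC (by positivity) h3
          _ = C * a ^ 2 / 3 ^ j := by
              field_simp
      have h4 : (m : ℝ) * g (3 ^ j) ^ 2 ≤ a ^ 2 / 3 ^ j := by
        have h5 : g (3 ^ j) ^ 2 ≤ (a ^ 3 / 3 ^ j) ^ 2 := pow_le_pow_left₀ (g0 _) ih 2
        calc (m : ℝ) * g (3 ^ j) ^ 2 ≤ 3 ^ j / a ^ 4 * (a ^ 3 / 3 ^ j) ^ 2 :=
              mul_le_mul hm1 h5 (by positivity) (by positivity)
          _ = a ^ 2 / 3 ^ j := by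
              field_simp
      have h6 : (3 : ℕ) ^ (j + 1) = 3 * 3 ^ j := by ring
      rw [h6]
      calc g (3 * 3 ^ j) ≤ t n + m * g (3 ^ j) ^ 2 := h1
        _ ≤ C * a ^ 2 / 3 ^ j + a ^ 2 / 3 ^ j := add_le_add h2 h4
        _ = (3 * (C + 1)) * a ^ 2 / 3 ^ (j + 1) := by
            rw [pow_succ]
            field_simp
            ring
        _ = a ^ 3 / 3 ^ (j + 1) := by
            rw [← ha]
            ring
  refine ⟨3 * a ^ 3, by positivity, fun r hr => ?_⟩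
  have h1 : 3 ^ Nat.log 3 r ≤ r := Nat.pow_log_le_self 3 (by omega)
  have h2 : r < 3 ^ (Nat.log 3 r + 1) := Nat.lt_pow_succ_log_self (by norm_num) r
  have hr0 : (0 : ℝ) < r := by exact_mod_cast hr
  have h3 : (r : ℝ) ≤ 3 * 3 ^ Nat.log 3 r := by
    have h4 : (r : ℝ) ≤ 3 ^ (Nat.log 3 r + 1) := by exact_mod_cast h2.le
    rw [pow_succ] at h4
    linarith
  calc g r ≤ g (3 ^ Nat.log 3 r) := anti h1
    _ ≤ a ^ 3 / 3 ^ Nat.log 3 r := key _
    _ ≤ 3 * a ^ 3 / r := by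
        rw [div_le_div_iff₀ (by positivity) hr0]
        nlinarith [pow_pos ha0 3]

/-- growth of intrinsic balls -/
theorem ball_num {g : ℕ → ℝ} {c : ℝ} (d : ℕ) (hc : 0 < c) (g0 : ∀ r, 0 ≤ g r)
    (hg : ∀ r, g r ≤ (2 * (r : ℝ) + 1) ^ d)
    (step : ∀ r : ℕ, c * g r ^ 2 ≤ (2 * (r : ℝ) + 1) * g (2 * r + 1)) :
    ∀ r : ℕ, g r ≤ 8 / c * ((r : ℝ) + 1) := by
  intro r0
  by_contra hcon
  push Not at hcon
  have hR : ∀ j : ℕ, ∃ r : ℕ, (r : ℝ) + 1 = 2 ^ j * ((r0 : ℝ) + 1) ∧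
      (2 : ℝ) ^ (2 ^ j) ≤ c / 4 * g r / (r + 1) := by
    intro j
    induction j with
    | zero =>
      refine ⟨r0, by simp, ?_⟩
      have h0 : (0 : ℝ) < (r0 : ℝ) + 1 := by positivity
      rw [le_div_iff₀ h0]
      have h1 := mul_le_mul_of_nonneg_left hcon.le (by positivity : 0 ≤ c / 4)
      calc (2 : ℝ) ^ (2 ^ 0) * ((r0 : ℝ) + 1) = c / 4 * (8 / c * ((r0 : ℝ) + 1)) := by
            field_simp
            norm_num
        _ ≤ _ := h1
    | succ j ih =>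
      obtain ⟨r, h1, h2⟩ := ih
      refine ⟨2 * r + 1, ?_, ?_⟩
      · push_cast
        rw [pow_succ]
        linarith
      · have h0 : (0 : ℝ) < (r : ℝ) + 1 := by positivity
        have h3 : c * g r ^ 2 ≤ (2 * ((r : ℝ) + 1)) * g (2 * r + 1) :=
          (step r).trans (mul_le_mul_of_nonneg_right (by linarith) (g0 _))
        have h4 : ((2 : ℝ) ^ (2 ^ j)) ^ 2 ≤ (c / 4 * g r / (r + 1)) ^ 2 :=
          pow_le_pow_left₀ (by positivity) h2 2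
        have h5 : (2 : ℝ) ^ (2 ^ (j + 1)) = ((2 : ℝ) ^ (2 ^ j)) ^ 2 := by
          rw [← pow_mul, pow_succ]
        rw [h5]
        refine h4.trans ?_
        push_cast
        have h6 : (2 * (r : ℝ) + 1 + 1) = 2 * (r + 1) := by ring
        rw [h6, div_pow, div_le_div_iff₀ (by positivity) (by positivity)]
        have h7 := mul_le_mul_of_nonneg_left h3
          (by positivity : 0 ≤ c / 16 * (2 * ((r : ℝ) + 1)))
        calc (c / 4 * g r) ^ 2 * (2 * ((r : ℝ) + 1)) =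
            c / 16 * (2 * ((r : ℝ) + 1)) * (c * g r ^ 2) := by ring
          _ ≤ _ := h7
          _ = c / 4 * g (2 * r + 1) * ((r : ℝ) + 1) ^ 2 := by ring
  have hlim : Tendsto (fun j : ℕ => c / 4 * (2 * ((r0 : ℝ) + 1)) ^ d *
      (((2 ^ j : ℕ) : ℝ) ^ d / 2 ^ (2 ^ j))) atTop (𝓝 0) := by
    have h1 : Tendsto (fun n : ℕ => (n : ℝ) ^ d / 2 ^ n) atTop (𝓝 0) :=
      tendsto_pow_const_div_const_pow_of_one_lt d (by norm_num)
    have h2 : Tendsto (fun j : ℕ => 2 ^ j) atTop atTop :=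
      tendsto_pow_atTop_atTop_of_one_lt (by norm_num)
    have h3 := (h1.comp h2).const_mul (c / 4 * (2 * ((r0 : ℝ) + 1)) ^ d)
    rw [mul_zero] at h3
    exact h3
  have hev := hlim.eventually (gt_mem_nhds (zero_lt_one' ℝ))
  obtain ⟨j, hj⟩ := hev.exists
  obtain ⟨r, h1, h2⟩ := hR j
  have h0 : (1 : ℝ) ≤ (r : ℝ) + 1 := by
    have : (0 : ℝ) ≤ r := Nat.cast_nonneg r
    linarith
  have h3 : c / 4 * g r / (r + 1) ≤ c / 4 * (2 * ((r0 : ℝ) + 1)) ^ d * ((2 ^ j : ℕ) : ℝ) ^ d := by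
    calc c / 4 * g r / (r + 1) ≤ c / 4 * g r :=
          div_le_self (mul_nonneg (by positivity) (g0 r)) h0
      _ ≤ c / 4 * (2 * (r : ℝ) + 1) ^ d := mul_le_mul_of_nonneg_left (hg r) (by positivity)
      _ ≤ c / 4 * (2 * ((r : ℝ) + 1)) ^ d := by
          apply mul_le_mul_of_nonneg_left _ (by positivity)
          apply pow_le_pow_left₀ (by positivity)
          linarith
      _ = _ := by
          rw [h1]
          push_cast
          rw [mul_assoc (c / 4), ← mul_pow]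
          congr 2
          ring
  have h4 := h2.trans h3
  rw [← mul_div_assoc, div_lt_one (by positivity)] at hj
  exact absurd h4 (not_le.2 hj)

end Pool.Agent.PB.T10
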