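import Pool.Agent.PB.T.ThinA

/-!
# PROJECT PB, module T-Thin: `Gam_thin`, `kap_thin` from `thin` (plan in T/ThinA.lean)
-/

set_option autoImplicit false
open MeasureTheory Filter Topology
open scoped ENNReal BigOperators

namespace Pool.Agent.PB.T10

variable {d : ℕ}

theorem Gam_thin {p p' : ℝ} (hp' : 0 < p') (hpp : p' ≤ p) (hp1 : p ≤ 1) (r : ℕ) :
    Gam d p r ≤ ENNReal.ofReal ((p / p') ^ r) * Gam d p' r := by
  unfold Gam
  refine iSup_le fun F => ?_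
  refine le_trans ?_ (mul_le_mul_right (le_iSup (fun F => Pr d (RadEv p' F r 0)) F) _)
  have hcs : Countable (Sym2 (V d)) := inferInstance
  have key : ∀ t : ℝ, RadEv t F r (0 : V d) = {ω : Om d |
      ∃ q : {q : Finset (Sym2 (V d)) × V d // (q.1 : Set (Sym2 (V d))) ⊆ F ∧ q.1.card ≤ r ∧
        RchL (q.1 : Set (Sym2 (V d))) r 0 q.2}, ((q.1.1 : Finset (Sym2 (V d))) : Set (Sym2 (V d))) ⊆
          opn t ω ∧ opn t ω ∈ {O : Set (Sym2 (V d)) | ∀ m < r, ¬ RchL (O ∩ F) m 0 q.1.2}} := by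
    intro t
    ext ω
    constructor
    · rintro ⟨y, h1, h2⟩
      obtain ⟨S, hS1, hS2, hS3⟩ := exists_rchL_finset h1
      exact ⟨⟨(S, y), fun e he => (hS1 he).2, hS2, hS3⟩, fun e he => (hS1 he).1, h2⟩
    · rintro ⟨⟨⟨S, y⟩, hS1, hS2, hS3⟩, h1, h2⟩
      have h3 : (S : Set (Sym2 (V d))) ⊆ opn t ω ∩ F := fun e he => ⟨h1 he, hS1 he⟩
      exact ⟨y, hS3.mono h3, h2⟩
  rw [key p, key p']
  refine thin hp' hpp hp1 (fun q : {q : Finset (Sym2 (V d)) × V d //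
    (q.1 : Set (Sym2 (V d))) ⊆ F ∧ q.1.card ≤ r ∧ RchL (q.1 : Set (Sym2 (V d))) r 0 q.2} => q.1.1)
    (fun q => q.2.2.1) (fun q => {O : Set (Sym2 (V d)) | ∀ m < r, ¬ RchL (O ∩ F) m 0 q.1.2})
    ?_ ?_
  · intro q
    have h1 : {O : Set (Sym2 (V d)) | ∀ m < r, ¬ RchL (O ∩ F) m 0 q.1.2} =
        ⋂ m : ℕ, ⋂ _ : m < r, {O : Set (Sym2 (V d)) | RchL (O ∩ F) m 0 q.1.2}ᶜ := by
      ext O
      simp
    rw [h1]
    exact MeasurableSet.iInter fun m => MeasurableSet.iInter fun _ =>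
      ((MES_id.inter (MES.const F)).rchL m 0 q.1.2).compl
  · intro q O O' hO h m hm hR
    exact h m hm (hR.mono (Set.inter_subset_inter_left F hO))

theorem kap_thin {p p' : ℝ} (hp' : 0 < p') (hpp : p' ≤ p) (hp1 : p ≤ 1) (r : ℕ) (x : V d) :
    kap p r x ≤ ENNReal.ofReal ((p / p') ^ r) * kap p' r x := by
  unfold kap
  have hcs : Countable (Sym2 (V d)) := inferInstance
  have key : ∀ t : ℝ, {ω : Om d | RchL (opn t ω) r 0 x} = {ω : Om d |
      ∃ q : {S : Finset (Sym2 (V d)) // S.card ≤ r ∧ RchL (S : Set (Sym2 (V d))) r 0 x},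
        ((q.1 : Finset (Sym2 (V d))) : Set (Sym2 (V d))) ⊆ opn t ω ∧
          opn t ω ∈ (Set.univ : Set (Set (Sym2 (V d))))} := by
    intro t
    ext ω
    constructor
    · intro h1
      obtain ⟨S, hS1, hS2, hS3⟩ := exists_rchL_finset h1
      exact ⟨⟨S, hS2, hS3⟩, hS1, trivial⟩
    · rintro ⟨⟨S, hS1, hS2⟩, h1, -⟩
      exact hS2.mono h1
  rw [key p, key p']
  exact thin hp' hpp hp1 (fun q : {S : Finset (Sym2 (V d)) // S.card ≤ r ∧
    RchL (S : Set (Sym2 (V d))) r 0 x} => q.1) (fun q => q.2.1) (fun _ => Set.univ)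
    (fun _ => MeasurableSet.univ) (fun _ _ _ _ _ => trivial)

theorem Gr_thin {p p' : ℝ} (hp' : 0 < p') (hpp : p' ≤ p) (hp1 : p ≤ 1) (r : ℕ) :
    Gr d p r ≤ ENNReal.ofReal ((p / p') ^ r) * Gr d p' r := by
  unfold Gr
  rw [← ENNReal.tsum_mul_left]
  exact ENNReal.tsum_le_tsum fun x => kap_thin hp' hpp hp1 r x

theorem kap_le_tau (p : ℝ) (r : ℕ) (x : V d) : kap p r x ≤ tau p x :=
  measure_mono fun _ h => RchL.rch h

end Pool.Agent.PB.T10
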