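import Pool.Agent.PB.T.KN
import Pool.Agent.PB.T.Num
import Pool.Agent.PB.T.Thin
import Pool.Agent.PB.T.Ball
import Pool.Agent.PB.P.Act
import Pool.Agent.PB.Outs

/-!
# PROJECT PB, Section 10: `out10 : Crit d → Out5 d → Out10 d` (helper39)
-/

set_option autoImplicit false
open MeasureTheory Filter Topology
open scoped ENNReal BigOperators

namespace Pool.Agent.PB.T10

variable {d : ℕ}

theorem RchL.map {W W' : Type*} {O : Set (Sym2 W)} {O' : Set (Sym2 W')} (f : W → W')
    (h : ∀ a b, s(a, b) ∈ O → s(f a, f b) ∈ O') {n : ℕ} {x y : W} (hxy : RchL O n x y) :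
    RchL O' n (f x) (f y) := by
  induction n generalizing y with
  | zero => exact congrArg f hxy
  | succ n ih =>
    rcases hxy with h1 | ⟨z, hz, hzy⟩
    · exact Or.inl (ih h1)
    · exact Or.inr ⟨f z, ih hz, h _ _ hzy⟩

theorem RchL_equiv {W W' : Type*} {O : Set (Sym2 W)} {O' : Set (Sym2 W')} (f : W ≃ W')
    (h : ∀ a b, s(a, b) ∈ O ↔ s(f a, f b) ∈ O') (n : ℕ) (x y : W) :
    RchL O n x y ↔ RchL O' n (f x) (f y) := by
  constructor
  · exact RchL.map f fun a b => (h a b).1
  · intro h1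
    have := RchL.map (O' := O) f.symm (fun a b hab => by rw [h]; simpa using hab) h1
    simpa using this

theorem trans_all (d : ℕ) (p : ℝ) : Trans d p where
  rchL := by
    intro r x y
    unfold kap
    rw [← Pr_act (trI x) {ω | RchL (opn p ω) r 0 (y - x)}]
    congr 1
    ext ω
    simp only [Set.mem_ofPred_eq]
    rw [RchL_equiv (trI x) (fun a b => mem_opn_act (trI_aut x) p ω a b)]
    simp [trI_apply]
  rch := tau_shift p
  even := tau_neg p

/-- translation of a set of edges -/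
theorem rad_shift (p : ℝ) (F : Set (Sym2 (V d))) (r : ℕ) (y : V d) :
    Pr d (RadEv p F r y) = Pr d (RadEv p {e | Sym2.map (trI y) e ∈ F} r 0) := by
  rw [← Pr_act (trI y) (RadEv p {e | Sym2.map (trI y) e ∈ F} r 0)]
  congr 1
  ext ω
  have hE : ∀ a b, s(a, b) ∈ opn p (act (trI y) ω) ∩ {e | Sym2.map (trI y) e ∈ F} ↔
      s(trI y a, trI y b) ∈ opn p ω ∩ F := by
    intro a b
    simp only [Set.mem_inter_iff, mem_opn_act (trI_aut y), Set.mem_ofPred_eq, Sym2.map_mk]
  have hR : ∀ n x z, RchL (opn p (act (trI y) ω) ∩ {e | Sym2.map (trI y) e ∈ F}) n x z ↔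
      RchL (opn p ω ∩ F) n (trI y x) (trI y z) := fun n x z => RchL_equiv (trI y) hE n x z
  have h0 : trI y 0 = y := by simp [trI_apply]
  simp only [RadEv, Set.mem_ofPred_eq, Set.Nonempty, Sph]
  constructor
  · rintro ⟨z, hz1, hz2⟩
    refine ⟨(trI y).symm z, ?_, fun m hm h => hz2 m hm ?_⟩
    · rw [hR, h0, Equiv.apply_symm_apply]; exact hz1
    · rw [hR, h0, Equiv.apply_symm_apply] at h; exact h
  · rintro ⟨z, hz1, hz2⟩
    refine ⟨trI y z, ?_, fun m hm h => hz2 m hm ?_⟩
    · rw [hR, h0] at hz1; exact hz1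
    · rw [hR, h0]; exact h

theorem rad_le (p : ℝ) (F : Set (Sym2 (V d))) (r : ℕ) (y : V d) :
    Pr d (RadEv p F r y) ≤ Gam d p r := by
  rw [rad_shift]
  exact le_iSup (fun F : Set (Sym2 (V d)) => Pr d (RadEv p F r 0)) _

theorem Gam_eq (p : ℝ) (r : ℕ) : PB.Gam d p r = Gam d p r := by
  refine le_antisymm ?_ ?_
  · exact iSup_le fun F => iSup_le fun y => rad_le p F r y
  · refine iSup_le fun F => ?_
    exact le_iSup_of_le F (le_iSup (fun y : V d => Pr d {ω : Om d | radGe (opn p ω ∩ F) r y}) 0)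

theorem Gr_ne_top (p : ℝ) (r : ℕ) : Gr d p r ≠ ⊤ :=
  ne_top_of_le_ne_top ENNReal.ofReal_ne_top (Gr_le p r)

theorem J_zero (p : ℝ) : J (d := d) p 0 = 0 := by
  unfold J
  rw [if_neg]
  simp [l1]

theorem one_le_nrmJ (hC : Crit d) : 1 ≤ nrm (J (d := d) (pc d)) := by
  classical
  have h := hC.phi_ge {0} (Finset.mem_singleton_self _)
  refine h.trans ?_
  unfold phi nrm
  rw [tsum_eq_single (0 : V d)]
  · refine ENNReal.tsum_le_tsum fun w => ?_
    split_ifs with h
    · rw [sub_zero]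
      calc J (pc d) w * _ ≤ J (pc d) w * 1 := by gcongr; exact prob_le_one
        _ = _ := mul_one _
    · exact zero_le
  · intro z hz
    rw [ENNReal.tsum_eq_zero]
    intro w
    rw [if_neg]
    rintro ⟨h1, -⟩
    exact hz (by simpa using h1)

theorem one_le_Bm (p : ℝ) (m : ℕ) : 1 ≤ cpow (tau (d := d) p) m 0 := by
  induction m with
  | zero => simp [cpow, dlt]
  | succ m ih =>
    have h0 : tau (d := d) p 0 = 1 := by
      unfold tau
      have : {ω : Om d | Rch (opn p ω) 0 0} = Set.univ := by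
        ext ω; simp [Rch.refl]
      rw [this, measure_univ]
    show 1 ≤ ∑' y, tau p y * cpow (tau p) m (0 - y)
    refine le_trans ?_ (ENNReal.le_tsum (0 : V d))
    rw [h0, one_mul, sub_zero]
    exact ih

theorem sm3_le (hC : Crit d) : sm d (pc d) 3 ≤ ENNReal.ofReal (1 / 100) := by
  refine le_trans ?_ hC.small
  calc sm d (pc d) 3 = 1 * sm d (pc d) 3 := (one_mul _).symm
    _ ≤ _ := by gcongr; exact one_le_Bm _ _

/-- OUTPUT of Section 10 -/
theorem out10 (hC : Crit d) (h5 : Out5 d) : Out10 d := by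
  have hT : ∀ p : ℝ, Trans d p := trans_all d
  have hrad : ∀ (p : ℝ) (F : Set (Sym2 (V d))) (r : ℕ) (y : V d),
      Pr d (RadEv p F r y) ≤ Gam d p r := rad_le
  have hpc := hC.pc_pos
  have hpc1 := hC.pc_lt
  -- ball growth at `p_c`
  have hball : ∀ r : ℕ, (Gr d (pc d) r).toReal ≤ 8 / (1 / 2) * ((r : ℝ) + 1) := by
    refine ball_num (g := fun r => (Gr d (pc d) r).toReal) d (c := 1 / 2) (by norm_num)
      (fun r => ENNReal.toReal_nonneg) (fun r => ?_) (fun r => ?_)
    · have h := ENNReal.toReal_mono ENNReal.ofReal_ne_top (Gr_le (d := d) (pc d) r)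
      rwa [ENNReal.toReal_ofReal (by positivity)] at h
    · have h := ball_step hpc.le hpc1.le (hT (pc d)) h5.theta_pc r
      have h1 : (Gr d (pc d) r) ^ 2 ≤ (2 * r + 1 : ℕ) * Gr d (pc d) (2 * r + 1) +
          ENNReal.ofReal (1 / 100) * (Gr d (pc d) r) ^ 2 := by
        calc (Gr d (pc d) r) ^ 2 = 1 * (Gr d (pc d) r) ^ 2 := (one_mul _).symm
          _ ≤ nrm (J (d := d) (pc d)) * (Gr d (pc d) r) ^ 2 := by gcongr; exact one_le_nrmJ hC
          _ ≤ _ := h
          _ ≤ _ := by gcongr; exact sm3_le hC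
      have h2 := ENNReal.toReal_mono (by
        refine ENNReal.add_ne_top.2 ⟨ENNReal.mul_ne_top (ENNReal.natCast_ne_top _) (Gr_ne_top _ _),
          ENNReal.mul_ne_top ENNReal.ofReal_ne_top (ENNReal.pow_ne_top (Gr_ne_top _ _))⟩) h1
      rw [ENNReal.toReal_add (ENNReal.mul_ne_top (ENNReal.natCast_ne_top _) (Gr_ne_top _ _))
        (ENNReal.mul_ne_top ENNReal.ofReal_ne_top (ENNReal.pow_ne_top (Gr_ne_top _ _))),
        ENNReal.toReal_mul, ENNReal.toReal_mul, ENNReal.toReal_pow, ENNReal.toReal_natCast,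
        ENNReal.toReal_ofReal (by norm_num)] at h2
      push_cast at h2
      nlinarith [sq_nonneg ((Gr d (pc d) r).toReal)]
  refine ⟨?_, ?_, ?_, ?_⟩
  · obtain ⟨C, hC1, ht⟩ := h5.tail
    obtain ⟨C', hC', h⟩ := kn_num (g := fun r => (Gam d (pc d) r).toReal)
      (t := fun n => (Pr d {ω : Om d | n ≤ Nc (opn (pc d) ω) (0 : V d)}).toReal) (C := C)
      (by linarith) (fun r => ENNReal.toReal_nonneg)
      (fun r => by
        have := ENNReal.toReal_mono ENNReal.one_ne_top (Gam_le_one (d := d) (pc d) r)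
        simpa using this)
      (fun a b hab => ENNReal.toReal_mono
        (ne_top_of_le_ne_top ENNReal.one_ne_top (Gam_le_one (d := d) (pc d) a))
        (Gam_anti (pc d) hab))
      (fun n hn => (ht n hn).1)
      (fun r m n hr hn => by
        have h1 := KN_step (hrad (pc d)) h5.theta_pc hr hn
        have hG : Gam d (pc d) r ≠ ⊤ :=
          ne_top_of_le_ne_top ENNReal.one_ne_top (Gam_le_one (d := d) (pc d) r)
        have h2 := ENNReal.toReal_mono (by
          refine ENNReal.add_ne_top.2 ⟨measure_ne_top _ _, ENNReal.mul_ne_top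
            (ENNReal.natCast_ne_top _) (ENNReal.pow_ne_top hG)⟩) h1
        rw [ENNReal.toReal_add (measure_ne_top _ _) (ENNReal.mul_ne_top
            (ENNReal.natCast_ne_top _) (ENNReal.pow_ne_top hG)), ENNReal.toReal_mul,
          ENNReal.toReal_pow, ENNReal.toReal_natCast] at h2
        exact h2)
    refine ⟨max 1 C', le_max_left _ _, fun r hr => ?_⟩
    have hG : Gam d (pc d) r ≠ ⊤ :=
      ne_top_of_le_ne_top ENNReal.one_ne_top (Gam_le_one (d := d) (pc d) r)
    rw [Gam_eq]
    refine (ENNReal.le_ofReal_iff_toReal_le hG (by positivity)).2 ((h r hr).trans ?_)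
    gcongr
    exact le_max_right _ _
  · intro p r hp hp1
    rw [Gam_eq, Gam_eq]
    exact Gam_thin hpc hp hp1 r
  · intro p r x hp hp1
    exact kap_thin hpc hp hp1 r x
  · refine ⟨16, by norm_num, fun r => ?_⟩
    show Gr d (pc d) r ≤ _
    refine (ENNReal.le_ofReal_iff_toReal_le (Gr_ne_top _ _) (by positivity)).2 ?_
    have := hball r
    norm_num at this ⊢
    exact this

end Pool.Agent.PB.T10
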