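import Pool.Agent.PB.Basic

/-!
# PROJECT PB, module T-Tree: splitting of paths with control of the length (deterministic, 10.3)

All statements are about an arbitrary edge set `O : Set (Sym2 W)`.

SUGGESTED TOOL (prove first): from `RchL O r x y` one gets a list / Mathlib walk. With
`G := SimpleGraph.fromEdgeSet O`: `RchL O r x y` gives `p : G.Walk x y` with `p.length ≤ r`
(induction; loops `s(z,z) ∈ O` are skipped), then `p.bypass` (needs `DecidableEq W`, use
`classical`) is a path with `p.bypass.length ≤ p.length` and `p.bypass.IsPath`. Conversely a walk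
`p : G.Walk x y` gives `RchL {e | e ∈ p.edges} p.length x y` (induction on `p`: `RchL.trans`).
`RchL` in a set of edges: `RchL.mono`.

PLAN.
* `walk_of_rchL`: as above. * `rchL_of_walk`: as above.
* `tree_len`: take a path `p` from `o` to `u` of length `≤ r`, `T` = its support. If `z ∈ T` put
  `w = z`, `S3 = ∅`. Otherwise follow the connection from `z` to `o ∈ T` until the first vertex
  `w ∈ T` (`Rch.exists_first_cross` with `K = Tᶜ` gives `a ∉ T`, `w ∈ T`, `s(a,w) ∈ O` and a
  connection `z → a` using only edges inside `Tᶜ`): all edges of this part have an endpoint outside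
  `T`, so they are not edges of `p`. `S1` = edges of `p.takeUntil w`, `S2` = edges of
  `p.dropUntil w`; disjoint since the edges of a path are distinct (`IsPath.isTrail`,
  `edges_nodup`, `take_spec`, `Walk.edges_append`). Finite `S3`: `Rch.exists_finite`.
* `detour`: `RchL O r v x` by a path `p` (length `≤ r`). If no vertex of `p` is in `K` then all its
  edges are in `(Del.ofSet K).rem O` and `RchL (..) r v x`, contradiction. So some `z ∈ K` is on
  `p`; `S1` = edges of `p.takeUntil z`, `S2` = edges of `p.dropUntil z`.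
* `card_sep`: `2r+1` bound. Fix `q0` in the set (otherwise trivial). From
  `RchL O (2r+1) o x` (by `sep_len`) take a path `p` of length `≤ 2r+1`. Every `q` in the set has
  `s(q.1,q.2) ∈ p.edges`: otherwise `x ∈ Cl (del1 O e) o = K`, but `x` is reached from `q.2 ∉ K`
  by edges with no endpoint in `K` (`ClA_disjoint`-like: induct), contradiction. The map
  `q ↦ s(q.1,q.2)` is injective on the set: `s(a,b) = s(b,a)` would give `a ∈ K` and `a ∉ K` for
  the same `K` (`K` only depends on the edge). So the number is at most the number of edges of `p`.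
* `sep_len`: `RchL O r o u`, edge, `RchL O r v x`.
-/

set_option autoImplicit false
open scoped BigOperators

namespace Pool.Agent.PB.T10

variable {W : Type*}

theorem walk_of_rchL {O : Set (Sym2 W)} {r : ℕ} {x y : W} (h : RchL O r x y) :
    ∃ p : (SimpleGraph.fromEdgeSet O).Walk x y, p.IsPath ∧ p.length ≤ r := by
  classical
  have key : ∃ p : (SimpleGraph.fromEdgeSet O).Walk x y, p.length ≤ r := by
    induction r generalizing y with
    | zero =>
      obtain rfl : x = y := h
      exact ⟨SimpleGraph.Walk.nil, le_refl _⟩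
    | succ n ih =>
      rcases h with h | ⟨z, hz, hzy⟩
      · obtain ⟨p, hp⟩ := ih h
        exact ⟨p, by omega⟩
      · obtain ⟨p, hp⟩ := ih hz
        by_cases hne : z = y
        · subst hne
          exact ⟨p, by omega⟩
        · refine ⟨p.concat ((SimpleGraph.fromEdgeSet_adj O).2 ⟨hzy, hne⟩), ?_⟩
          rw [SimpleGraph.Walk.length_concat]
          omega
  obtain ⟨p, hp⟩ := key
  exact ⟨p.bypass, p.bypass_isPath, (p.length_bypass_le_length).trans hp⟩

theorem rchL_of_walk {O : Set (Sym2 W)} {x y : W} (p : (SimpleGraph.fromEdgeSet O).Walk x y) :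
    RchL {e | e ∈ p.edges} p.length x y := by
  induction p with
  | nil => rfl
  | cons h p ih =>
    rename_i a b c
    have h1 : RchL {e | e ∈ (SimpleGraph.Walk.cons h p).edges} 1 a b :=
      Or.inr ⟨a, rfl, by simp⟩
    have h2 : RchL {e | e ∈ (SimpleGraph.Walk.cons h p).edges} p.length b c :=
      ih.mono (fun e he => by
        simp only [Set.mem_ofPred_eq] at he ⊢
        rw [SimpleGraph.Walk.edges_cons]
        exact List.mem_cons_of_mem _ he)
    have h3 := h1.trans h2
    rw [SimpleGraph.Walk.length_cons, Nat.add_comm]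
    exact h3

private theorem edges_sub {O : Set (Sym2 W)} {x y : W} (p : (SimpleGraph.fromEdgeSet O).Walk x y)
    {e : Sym2 W} (he : e ∈ p.edges) : e ∈ O := by
  have := p.edges_subset_edgeSet he
  rw [SimpleGraph.edgeSet_fromEdgeSet] at this
  exact this.1

private theorem fin_edges {O : Set (Sym2 W)} {x y : W} (p : (SimpleGraph.fromEdgeSet O).Walk x y) :
    {e | e ∈ p.edges}.Finite := p.edges.finite_toSet

private theorem disj_split {O : Set (Sym2 W)} {x y w : W} [DecidableEq W]
    (p : (SimpleGraph.fromEdgeSet O).Walk x y) (hp : p.IsPath) (hw : w ∈ p.support) :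
    Disjoint {e | e ∈ (p.takeUntil w hw).edges} {e | e ∈ (p.dropUntil w hw).edges} := by
  have h1 : p.edges.Nodup := hp.isTrail.edges_nodup
  have h2 : p.edges = (p.takeUntil w hw).edges ++ (p.dropUntil w hw).edges := by
    rw [← SimpleGraph.Walk.edges_append, SimpleGraph.Walk.take_spec]
  rw [h2] at h1
  have h3 := List.disjoint_of_nodup_append h1
  rw [Set.disjoint_left]
  intro e he he'
  exact h3 he he'

/-- `o → u` by at most `r` edges and `o → z`: branching at some `w` -/
theorem tree_len {O : Set (Sym2 W)} {r : ℕ} {o u z : W} (h1 : RchL O r o u) (h2 : Rch O o z) :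
    ∃ w : W, ∃ S1 S2 S3 : Set (Sym2 W), S1 ⊆ O ∧ S2 ⊆ O ∧ S3 ⊆ O ∧ S1.Finite ∧ S2.Finite ∧
      S3.Finite ∧ Disjoint S1 S2 ∧ Disjoint S1 S3 ∧ Disjoint S2 S3 ∧
      RchL S1 r o w ∧ Rch S2 w u ∧ Rch S3 w z := by
  classical
  obtain ⟨p, hp, hpl⟩ := walk_of_rchL h1
  -- the branch point and the third set
  have key : ∃ w, w ∈ p.support ∧ ∃ S3 : Set (Sym2 W), S3 ⊆ O ∧ S3.Finite ∧
      (∀ e ∈ S3, ∃ x ∈ e, x ∉ p.support) ∧ Rch S3 w z := by
    by_cases hz : z ∈ p.support
    · exact ⟨z, hz, ∅, Set.empty_subset _, Set.finite_empty, fun e he => absurd he (by simp),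
        Rch.refl _ _⟩
    · obtain ⟨a, b, ha, hb, hab, hr⟩ := Rch.exists_first_cross {v | v ∉ p.support}
        (x := z) (y := o) hz (fun h => h p.start_mem_support) h2.symm
      have hb' : b ∈ p.support := by
        by_contra hcon
        exact hb hcon
      have h3 : Rch {e ∈ O | ∃ x ∈ e, x ∉ p.support} z b := by
        refine Rch.tail (hr.mono ?_) (?_ : s(a, b) ∈ _)
        · intro e he
          refine ⟨he.1, ?_⟩
          induction e using Sym2.ind with
          | _ c d => exact ⟨c, Sym2.mem_mk_left c d, he.2 c (Sym2.mem_mk_left c d)⟩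
        · exact ⟨hab, a, Sym2.mem_mk_left a b, ha⟩
      obtain ⟨S3, hS3, hfin, hr3⟩ := h3.exists_finite
      exact ⟨b, hb', S3, fun e he => (hS3 he).1, hfin, fun e he => (hS3 he).2, hr3.symm⟩
  obtain ⟨w, hw, S3, hS3, hfin3, hout, hr3⟩ := key
  have hsupp : ∀ e ∈ p.edges, ∀ x ∈ e, x ∈ p.support := by
    intro e he x hx
    induction e using Sym2.ind with
    | _ c d =>
      rcases Sym2.mem_iff.1 hx with rfl | rfl
      · exact p.fst_mem_support_of_mem_edges he
      · exact p.snd_mem_support_of_mem_edges he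
  have hdis : ∀ S : Set (Sym2 W), (∀ e ∈ S, e ∈ p.edges) → Disjoint S S3 := by
    intro S hS
    rw [Set.disjoint_left]
    intro e he he'
    obtain ⟨x, hx, hxn⟩ := hout e he'
    exact hxn (hsupp e (hS e he) x hx)
  have ht : ∀ e ∈ (p.takeUntil w hw).edges, e ∈ p.edges := fun e he =>
    p.edges_takeUntil_subset_edges hw he
  have hd : ∀ e ∈ (p.dropUntil w hw).edges, e ∈ p.edges := fun e he =>
    p.edges_dropUntil_subset_edges hw he
  refine ⟨w, {e | e ∈ (p.takeUntil w hw).edges}, {e | e ∈ (p.dropUntil w hw).edges}, S3,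
    fun e he => edges_sub _ he, fun e he => edges_sub _ he, hS3, fin_edges _, fin_edges _, hfin3,
    disj_split p hp hw, hdis _ ht, hdis _ hd, ?_, (rchL_of_walk _).rch, hr3⟩
  exact (rchL_of_walk (p.takeUntil w hw)).mono_len
    ((p.length_takeUntil_le_length hw).trans hpl)

/-- a path of length `≤ r` from `v` to `x` that must visit `K` -/
theorem detour {O : Set (Sym2 W)} {r : ℕ} {v x : W} {K : Set W} (h : RchL O r v x)
    (hn : ¬ RchL ((Del.ofSet K).rem O) r v x) :
    ∃ z ∈ K, ∃ S1 S2 : Set (Sym2 W), S1 ⊆ O ∧ S2 ⊆ O ∧ S1.Finite ∧ S2.Finite ∧ Disjoint S1 S2 ∧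
      Rch S1 v z ∧ RchL S2 r z x := by
  classical
  obtain ⟨p, hp, hpl⟩ := walk_of_rchL h
  have key : ∃ z ∈ K, z ∈ p.support := by
    by_contra hcon
    push Not at hcon
    apply hn
    refine ((rchL_of_walk p).mono_len hpl).mono ?_
    intro e he
    rw [Del.ofSet_rem]
    refine ⟨edges_sub p he, ?_⟩
    intro y hy hyK
    refine hcon y hyK ?_
    induction e using Sym2.ind with
    | _ c d =>
      rcases Sym2.mem_iff.1 hy with rfl | rfl
      · exact p.fst_mem_support_of_mem_edges he
      · exact p.snd_mem_support_of_mem_edges he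
  obtain ⟨z, hzK, hz⟩ := key
  refine ⟨z, hzK, {e | e ∈ (p.takeUntil z hz).edges}, {e | e ∈ (p.dropUntil z hz).edges},
    fun e he => edges_sub _ he, fun e he => edges_sub _ he, fin_edges _, fin_edges _,
    disj_split p hp hz, (rchL_of_walk _).rch, ?_⟩
  exact (rchL_of_walk (p.dropUntil z hz)).mono_len ((p.length_dropUntil_le_length hz).trans hpl)

/-- the directed pairs `(u,v)` counted in 10.3: `s(u,v)` is an edge of `O` separating `o` from `x`,
`u` is reached from `o` by `≤ r` edges without it, `x` from `v` by `≤ r` edges off the cluster -/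
def sepPairs (O : Set (Sym2 W)) (r : ℕ) (o x : W) : Set (W × W) :=
  {q | s(q.1, q.2) ∈ O ∧ RchL (del1 O s(q.1, q.2)) r o q.1 ∧
    q.2 ∉ Cl (del1 O s(q.1, q.2)) o ∧
    RchL ((Del.ofSet (Cl (del1 O s(q.1, q.2)) o)).rem O) r q.2 x}

theorem sep_len {O : Set (Sym2 W)} {r : ℕ} {o x : W} (h : (sepPairs O r o x).Nonempty) :
    RchL O (2 * r + 1) o x := by
  obtain ⟨⟨u, v⟩, h1, h2, _, h4⟩ := h
  have h5 : RchL O (r + 1) o v := Or.inr ⟨u, h2.mono (del1_subset _ _), h1⟩
  have h6 := h5.trans (h4.mono (Del.rem_subset _ _))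
  have : 2 * r + 1 = r + 1 + r := by omega
  rw [this]
  exact h6

theorem card_sep (O : Set (Sym2 W)) (r : ℕ) (o x : W) :
    (sepPairs O r o x).encard ≤ (2 * r + 1 : ℕ) := by
  classical
  rcases Set.eq_empty_or_nonempty (sepPairs O r o x) with he | hne
  · rw [he, Set.encard_empty]
    exact zero_le
  obtain ⟨p, hp, hpl⟩ := walk_of_rchL (sep_len hne)
  have hmem : ∀ q ∈ sepPairs O r o x, s(q.1, q.2) ∈ p.edges := by
    rintro ⟨u, v⟩ ⟨h1, h2, h3, h4⟩
    by_contra hcon
    have hx : x ∈ Cl (del1 O s(u, v)) o := by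
      refine ((rchL_of_walk p).rch).mono ?_
      intro e he
      refine ⟨edges_sub p he, ?_⟩
      rintro rfl
      exact hcon he
    have hx' : x ∉ Cl (del1 O s(u, v)) o :=
      ClA_disjoint (A := Del.ofSet (Cl (del1 O s(u, v)) o)) (y := v) (O := O) ⟨h3, h4.rch⟩
    exact hx' hx
  have hinj : Set.InjOn (fun q : W × W => s(q.1, q.2)) (sepPairs O r o x) := by
    rintro ⟨u, v⟩ ⟨h1, h2, h3, h4⟩ ⟨u', v'⟩ ⟨h1', h2', h3', h4'⟩ heq
    simp only at heq h1 h2 h3 h4 h1' h2' h3' h4'
    rcases Sym2.eq_iff.1 heq with ⟨rfl, rfl⟩ | ⟨rfl, rfl⟩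
    · rfl
    · exfalso
      apply h3
      rw [Sym2.eq_swap]
      exact h2'.rch
  rw [← hinj.encard_image]
  have hsub : (fun q : W × W => s(q.1, q.2)) '' sepPairs O r o x ⊆
      (p.edges.toFinset : Set (Sym2 W)) := by
    rintro _ ⟨q, hq, rfl⟩
    rw [Finset.mem_coe, List.mem_toFinset]
    exact hmem q hq
  refine (Set.encard_le_encard hsub).trans ?_
  rw [Set.encard_coe_eq_coe_finsetCard]
  have hc : p.edges.toFinset.card ≤ 2 * r + 1 :=
    (List.toFinset_card_le _).trans (by rw [SimpleGraph.Walk.length_edges]; exact hpl)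
  exact_mod_cast hc

end Pool.Agent.PB.T10
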