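import Pool.Agent.PB.Basic

/-!
# PROJECT PB, module T-Det: intrinsic balls and spheres (deterministic, Section 10.1)

`Bl O n x` = vertices joined to `x` by at most `n` edges, `Sph O n x` = exactly distance `n`.
All statements are about an arbitrary edge set `O : Set (Sym2 W)`. Use `RchL` lemmas of Basic.

PLAN.
* `Sph_nonempty_anti`: induct on `r' - r`. If `z ∈ Sph O (r+1) x` then `RchL O (r+1) x z`,
  `¬ RchL O r x z`, so there is `w` with `RchL O r x w`, `s(w,z) ∈ O`; `w ∈ Sph O r x`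
  (if `RchL O m x w` with `m < r` then `RchL O (m+1) x z`, `m + 1 < r + 1`).
* `Sph_far`: induct on `k`... Let `z ∈ Sph O n x`. Claim (induction on `k`, for all `z ∈ Sph O (i+k) x`):
  there is `y ∈ Sph O i x` with `RchL (O \ touch (Bl O (i-1) x)) k y z`. For `k = 0`: `y = z`.
  Step: `z` has a predecessor `w ∈ Sph O (i+k) x` (as above); both `w` and `z` are not in
  `Bl O (i-1) x` (distance `≥ i`), so `s(w,z) ∉ touch (Bl O (i-1) x)`.
  Moreover `¬ RchL O' m y z` for `m < k` (`O' ⊆ O`, `RchL.trans` with `RchL O i x y`), so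
  `z ∈ Sph O' k y`. For general `n ≥ i + k` first use `Sph_nonempty_anti` to have a point of
  `Sph O (i+k) x`.
* `Bl_congr`: induction on `j`; a step out of `Bl O j x ⊆ Bl O n x ⊆ K` uses an edge touching `K`.
* `exists_thin_level`: the spheres `Sph O i x` (`r ≤ i < 2r`) are pairwise disjoint subsets of
  `Cl O x`; if all of them had `≥ m+1` points then `ncard (Cl O x) ≥ r (m+1) ≥ n`
  (`Set.ncard` of a finite disjoint union, e.g. via `Finset.card_biUnion` on `toFinset`s).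
-/

set_option autoImplicit false
open scoped BigOperators

namespace Pool.Agent.PB.T10

variable {W : Type*}

private theorem tdet_pred {O : Set (Sym2 W)} {r : ℕ} {x z : W} (hz : z ∈ Sph O (r + 1) x) :
    ∃ w ∈ Sph O r x, s(w, z) ∈ O := by
  obtain ⟨h1, h2⟩ := hz
  rcases h1 with h1 | ⟨w, hw, hwz⟩
  · exact absurd h1 (h2 r (Nat.lt_succ_self r))
  · refine ⟨w, ⟨hw, fun m hm hc => ?_⟩, hwz⟩
    exact h2 (m + 1) (Nat.succ_lt_succ hm) (Or.inr ⟨w, hc, hwz⟩)

theorem Sph_nonempty_anti {O : Set (Sym2 W)} {r r' : ℕ} (h : r ≤ r') {x : W}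
    (hne : (Sph O r' x).Nonempty) : (Sph O r x).Nonempty := by
  induction r', h using Nat.le_induction with
  | base => exact hne
  | succ n _ ih =>
    obtain ⟨z, hz⟩ := hne
    obtain ⟨w, hw, -⟩ := tdet_pred hz
    exact ih ⟨w, hw⟩

private theorem tdet_far {O : Set (Sym2 W)} {x : W} {i : ℕ} (hi : 1 ≤ i) (k : ℕ) :
    ∀ z ∈ Sph O (i + k) x, ∃ y ∈ Sph O i x, RchL (O \ touch (Bl O (i - 1) x)) k y z := by
  induction k with
  | zero => exact fun z hz => ⟨z, hz, rfl⟩
  | succ k ih =>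
    intro z hz
    obtain ⟨w, hw, hwz⟩ := tdet_pred (r := i + k) hz
    obtain ⟨y, hy, hyw⟩ := ih w hw
    refine ⟨y, hy, Or.inr ⟨w, hyw, hwz, ?_⟩⟩
    rintro ⟨a, ha, haB⟩
    rcases Sym2.mem_iff.1 ha with rfl | rfl
    · exact hw.2 (i - 1) (by omega) haB
    · exact hz.2 (i - 1) (by omega) haB

/-- part of a geodesic beyond level `i` -/
theorem Sph_far {O : Set (Sym2 W)} {x : W} {n i k : ℕ} (hi : 1 ≤ i) (h : i + k ≤ n)
    (hne : (Sph O n x).Nonempty) :
    ∃ y ∈ Sph O i x, (Sph (O \ touch (Bl O (i - 1) x)) k y).Nonempty := by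
  obtain ⟨z, hz⟩ := Sph_nonempty_anti h hne
  obtain ⟨y, hy, hyz⟩ := tdet_far hi k z hz
  refine ⟨y, hy, z, hyz, fun m hm hc => ?_⟩
  have h1 : RchL O m y z := hc.mono Set.sdiff_subset
  have h2 : RchL O (i + m) x z := RchL.trans hy.1 h1
  exact hz.2 (i + m) (by omega) h2

/-- the ball of radius `n + 1` is determined by the edges touching the ball of radius `n` -/
theorem Bl_congr {O O' : Set (Sym2 W)} {K : Set W} {n : ℕ} {x : W}
    (h : ∀ e ∈ touch K, e ∈ O ↔ e ∈ O') (hK : Bl O n x ⊆ K) :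
    ∀ j ≤ n + 1, Bl O j x = Bl O' j x := by
  intro j
  induction j with
  | zero => exact fun _ => rfl
  | succ j ih =>
    intro hj
    have h1 := ih (by omega)
    have h2 : ∀ z, RchL O j x z ↔ RchL O' j x z := fun z => by
      have := Set.ext_iff.1 h1 z
      exact this
    have h3 : ∀ z y, RchL O j x z → (s(z, y) ∈ O ↔ s(z, y) ∈ O') := fun z y hz =>
      h _ ⟨z, Sym2.mem_mk_left z y, hK (RchL.mono_len (by omega) hz)⟩
    ext y
    change (RchL O j x y ∨ ∃ z, RchL O j x z ∧ s(z, y) ∈ O) ↔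
      (RchL O' j x y ∨ ∃ z, RchL O' j x z ∧ s(z, y) ∈ O')
    rw [h2 y]
    refine or_congr Iff.rfl (exists_congr fun z => ?_)
    rw [← h2 z]
    exact and_congr_right fun hz => h3 z y hz

theorem Sph_congr {O O' : Set (Sym2 W)} {K : Set W} {n : ℕ} {x : W}
    (h : ∀ e ∈ touch K, e ∈ O ↔ e ∈ O') (hK : Bl O n x ⊆ K) :
    ∀ j ≤ n + 1, Sph O j x = Sph O' j x := by
  intro j hj
  have h1 : ∀ i ≤ n + 1, ∀ y, RchL O i x y ↔ RchL O' i x y := fun i hi y =>
    Set.ext_iff.1 (Bl_congr h hK i hi) y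
  ext y
  change (RchL O j x y ∧ ∀ m < j, ¬ RchL O m x y) ↔ (RchL O' j x y ∧ ∀ m < j, ¬ RchL O' m x y)
  rw [h1 j hj y]
  refine and_congr_right fun _ => forall_congr' fun m => forall_congr' fun hm => ?_
  rw [h1 m (by omega) y]

theorem Sph_subset_Cl (O : Set (Sym2 W)) (n : ℕ) (x : W) : Sph O n x ⊆ Cl O x :=
  fun _ h => h.1.rch

theorem Bl_subset_Cl (O : Set (Sym2 W)) (n : ℕ) (x : W) : Bl O n x ⊆ Cl O x :=
  fun _ h => RchL.rch h

/-- a level `i ∈ [r, 2r)` with at most `m` vertices -/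
theorem exists_thin_level {O : Set (Sym2 W)} {x : W} {r m n : ℕ} (hr : 1 ≤ r)
    (hn : n ≤ r * (m + 1)) (hfin : (Cl O x).Finite) (hcard : (Cl O x).ncard < n) :
    ∃ i, r ≤ i ∧ i < 2 * r ∧ (Sph O i x).ncard ≤ m := by
  classical
  by_contra hcon
  push Not at hcon
  have hfinS : ∀ i, (Sph O i x).Finite := fun i => hfin.subset (Sph_subset_Cl O i x)
  have hdis : ∀ i j, i < j → Disjoint (hfinS i).toFinset (hfinS j).toFinset := by
    intro i j hij
    rw [Finset.disjoint_left]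
    intro y hy hy'
    rw [Set.Finite.mem_toFinset] at hy hy'
    exact hy'.2 i hij hy.1
  have hdis' : ∀ i ∈ Finset.Ico r (2 * r), ∀ j ∈ Finset.Ico r (2 * r), i ≠ j →
      Disjoint (hfinS i).toFinset (hfinS j).toFinset := by
    intro i _ j _ hij
    rcases lt_or_gt_of_ne hij with h | h
    · exact hdis i j h
    · exact (hdis j i h).symm
  have hsub : (Finset.Ico r (2 * r)).biUnion (fun i => (hfinS i).toFinset) ⊆ hfin.toFinset := by
    intro y hy
    obtain ⟨i, _, hi⟩ := Finset.mem_biUnion.1 hy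
    rw [Set.Finite.mem_toFinset] at hi ⊢
    exact Sph_subset_Cl O i x hi
  have h1 := Finset.card_le_card hsub
  rw [Finset.card_biUnion hdis'] at h1
  have h2 : ∑ _i ∈ Finset.Ico r (2 * r), (m + 1) ≤
      ∑ i ∈ Finset.Ico r (2 * r), ((hfinS i).toFinset).card := by
    refine Finset.sum_le_sum fun i hi => ?_
    rw [Finset.mem_Ico] at hi
    have := hcon i hi.1 hi.2
    rw [Set.ncard_eq_toFinset_card _ (hfinS i)] at this
    exact this
  rw [Finset.sum_const, Nat.card_Ico, smul_eq_mul] at h2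
  have h3 : 2 * r - r = r := by omega
  rw [h3] at h2
  rw [Set.ncard_eq_toFinset_card _ hfin] at hcard
  omega

end Pool.Agent.PB.T10
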