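import Pool.Agent.PB.T.Defs
import Pool.Agent.PB.T.Det

/-!
# PROJECT PB, module T-KN: the Kozma-Nachmias step (Section 10.1)

Fix `F`, `r ≥ 1`; `E ω = opn p ω ∩ F`.

PLAN of `KN_step`. By `iSup_le` bound `Pr d (RadEv p F (3r) 0)` for each `F`.
Index set `T = ℕ × Finset (V d) × Finset (V d)` (countable). For `t = (i, K, L)` let
 `A t = {ω | r ≤ i ∧ L.card ≤ m ∧ L.Nonempty ∧ Bl (E ω) (i-1) 0 = K ∧ Sph (E ω) i 0 = L ∧
          ∀ j, r ≤ j → j < i → ¬ (Sph (E ω) j 0).ncard ≤ m}`,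
 `D t = ⋃ y ∈ L, {ω | (Sph (opn p ω ∩ (F \ touch K)) r y).Nonempty}`.
(1) `RadEv p F (3r) 0 ⊆ {ω | n ≤ Nc (opn p ω) 0} ∪ {ω | (Cl (opn p ω) 0).Infinite} ∪ ⋃ t, (A t ∩ D t)`:
 if the cluster of `0` in `opn p ω` is finite with `ncard < n` (`Nc = ncard`), so is the one in `E ω`
 (`Cl_mono`); `exists_thin_level` gives a level, take the least one `i` (`Nat.find`);
 `i < 2r`, so `i + r ≤ 3r` and `Sph_far` gives `y ∈ Sph E i 0` and a point in
 `Sph (E \ touch (Bl E (i-1) 0)) r y`; sets are finite as subsets of the cluster.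
 Note `opn p ω ∩ F \ touch K = opn p ω ∩ (F \ touch K)`.
(2) the `A t` are measurable (`MVS.eq_set`, `MES.bl`, `MES.sph`, and `ncard ≤ m` via `MVS.encard` or
 as a countable union over finite sets), pairwise disjoint (for `i = i'` clear; for `i < i'` the
 level `i` contradicts the last condition of `A t'`), and `A t ⊆ RadEv p F r 0`
 (`Sph_nonempty_anti`, `r ≤ i`).
(3) `A t` depends only on the labels of edges in `touch K`: if `ω, ω'` agree there then
 `e ∈ E ω ↔ e ∈ E ω'` for `e ∈ touch K`, so by `Bl_congr`, `Sph_congr` (with `n = i - 1`, using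
 `Bl (E ω) (i-1) 0 = K`) all balls and spheres of level `≤ i` agree. Each event in `D t` depends
 only on labels of edges not in `touch K` (`dep_opn`). So (`Pr_indep`)
 `Pr (A t ∩ D t) ≤ ∑ y ∈ L, Pr (A t) * Pr {..} ≤ Pr (A t) * (m * Gam d p r)` (`Gam_ge`).
(4) `expl_bound` with `X = RadEv p F r 0`, `c = m * Gam d p r`; `Pr X ≤ Gam d p r`.
-/

set_option autoImplicit false
open MeasureTheory Filter Topology
open scoped ENNReal BigOperators

namespace Pool.Agent.PB.T10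

variable {d : ℕ}

theorem measurableSet_RadEv (p : ℝ) (F : Set (Sym2 (V d))) (r : ℕ) (y : V d) :
    MeasurableSet (RadEv p F r y) := by
  have h := ((opn_MES (d := d) p).inter (MES.const F)).sph r y
  have : RadEv p F r y = ⋃ z : V d, {ω | z ∈ Sph (opn p ω ∩ F) r y} := by
    ext ω; simp [RadEv, Set.Nonempty]
  rw [this]
  exact MeasurableSet.iUnion fun z => h z

theorem Gam_le_one (p : ℝ) (r : ℕ) : Gam d p r ≤ 1 := iSup_le fun _ => prob_le_one

theorem Gam_anti (p : ℝ) : Antitone (Gam d p) := by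
  intro r r' h
  refine iSup_mono fun F => measure_mono fun ω hω => ?_
  exact Sph_nonempty_anti h hω

/-- the exploration event: first thin level `i ≥ r`, ball `K`, sphere `L` -/
private def Aev (p : ℝ) (F : Set (Sym2 (V d))) (r m : ℕ)
    (t : ℕ × Finset (V d) × Finset (V d)) : Set (Om d) :=
  {ω | r ≤ t.1 ∧ t.2.2.card ≤ m ∧ t.2.2.Nonempty ∧
    Bl (opn p ω ∩ F) (t.1 - 1) 0 = (t.2.1 : Set (V d)) ∧
    Sph (opn p ω ∩ F) t.1 0 = (t.2.2 : Set (V d)) ∧
    ∀ j, r ≤ j → j < t.1 → ¬ (Sph (opn p ω ∩ F) j 0).ncard ≤ m}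

private def Dev (p : ℝ) (F : Set (Sym2 (V d))) (r : ℕ)
    (t : ℕ × Finset (V d) × Finset (V d)) : Set (Om d) :=
  ⋃ y ∈ t.2.2, RadEv p (F \ touch (t.2.1 : Set (V d))) r y

private theorem measurableSet_ncard {Ω W : Type*} [MeasurableSpace Ω] [Countable W]
    {C : Ω → Set W} (hC : MVS C) (m : ℕ) : MeasurableSet {ω | (C ω).ncard ≤ m} := by
  have h1 : {ω | (C ω).ncard ≤ m} = (fun ω => (C ω).encard) ⁻¹' {x : ℕ∞ | x.toNat ≤ m} := rfl
  rw [h1]
  exact hC.encard (Set.to_countable _).measurableSet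

private theorem measurableSet_Aev (p : ℝ) (F : Set (Sym2 (V d))) (r m : ℕ)
    (t : ℕ × Finset (V d) × Finset (V d)) : MeasurableSet (Aev p F r m t) := by
  have hE : MES (fun ω : Om d => opn p ω ∩ F) := (opn_MES (d := d) p).inter (MES.const F)
  have e : Aev p F r m t = {_ω : Om d | r ≤ t.1} ∩ ({_ω : Om d | t.2.2.card ≤ m} ∩
      ({_ω : Om d | t.2.2.Nonempty} ∩
      ({ω : Om d | Bl (opn p ω ∩ F) (t.1 - 1) 0 = (t.2.1 : Set (V d))} ∩
      ({ω : Om d | Sph (opn p ω ∩ F) t.1 0 = (t.2.2 : Set (V d))} ∩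
      ⋂ j : ℕ, ⋂ _ : r ≤ j, ⋂ _ : j < t.1,
        {ω : Om d | (Sph (opn p ω ∩ F) j 0).ncard ≤ m}ᶜ)))) := by
    ext ω
    simp only [Aev, Set.mem_ofPred_eq, Set.mem_inter_iff, Set.mem_iInter, Set.mem_compl_iff]
  rw [e]
  refine (MeasurableSet.const _).inter ((MeasurableSet.const _).inter
    ((MeasurableSet.const _).inter (((hE.bl _ _).eq_set _).inter (((hE.sph _ _).eq_set _).inter ?_))))
  exact MeasurableSet.iInter fun j => MeasurableSet.iInter fun _ => MeasurableSet.iInter fun _ =>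
    (measurableSet_ncard (hE.sph j 0) m).compl

private theorem Aev_disjoint (p : ℝ) (F : Set (Sym2 (V d))) (r m : ℕ) :
    Pairwise (Function.onFun Disjoint (Aev (d := d) p F r m)) := by
  rintro ⟨i, K, L⟩ ⟨i', K', L'⟩ hne
  simp only [Function.onFun]
  rw [Set.disjoint_left]
  rintro ω ⟨h1, h2, -, h4, h5, h6⟩ ⟨h1', h2', -, h4', h5', h6'⟩
  simp only at h1 h2 h4 h5 h6 h1' h2' h4' h5' h6'
  rcases lt_trichotomy i i' with h | h | h
  · apply h6' i h1 h
    rw [h5, Set.ncard_coe_finset]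
    exact h2
  · subst h
    apply hne
    have e1 : K = K' := Finset.coe_injective (h4.symm.trans h4')
    have e2 : L = L' := Finset.coe_injective (h5.symm.trans h5')
    rw [e1, e2]
  · apply h6 i' h1' h
    rw [h5', Set.ncard_coe_finset]
    exact h2'

private theorem Aev_subset (p : ℝ) (F : Set (Sym2 (V d))) (r m : ℕ)
    (t : ℕ × Finset (V d) × Finset (V d)) : Aev p F r m t ⊆ RadEv p F r 0 := by
  rintro ω ⟨h1, -, h3, -, h5, -⟩
  refine Sph_nonempty_anti h1 ?_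
  rw [h5]
  exact h3

private theorem Aev_dep_aux (p : ℝ) (F : Set (Sym2 (V d))) {r m : ℕ} (hr : 1 ≤ r)
    (t : ℕ × Finset (V d) × Finset (V d)) {ω ω' : Om d}
    (h : ∀ e ∈ touch (t.2.1 : Set (V d)), e ∈ opn p ω ∩ F ↔ e ∈ opn p ω' ∩ F)
    (hω : ω ∈ Aev p F r m t) : ω' ∈ Aev p F r m t := by
  obtain ⟨h1, h2, h3, h4, h5, h6⟩ := hω
  have hi : t.1 - 1 + 1 = t.1 := Nat.sub_add_cancel (hr.trans h1)
  have hB := Bl_congr (n := t.1 - 1) (x := (0 : V d)) h h4.subset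
  have hS := Sph_congr (n := t.1 - 1) (x := (0 : V d)) h h4.subset
  rw [hi] at hB hS
  refine ⟨h1, h2, h3, ?_, ?_, ?_⟩
  · rw [← hB (t.1 - 1) (Nat.sub_le _ _)]
    exact h4
  · rw [← hS t.1 le_rfl]
    exact h5
  · intro j hj hji
    rw [← hS j hji.le]
    exact h6 j hj hji

private theorem Aev_dep (p : ℝ) (F : Set (Sym2 (V d))) {r m : ℕ} (hr : 1 ≤ r)
    (t : ℕ × Finset (V d) × Finset (V d)) :
    DependsOn (fun ω => ω ∈ Aev (d := d) p F r m t)
      (Sum.inl '' (touch (t.2.1 : Set (V d))) : Set (Ix d)) := by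
  intro ω ω' h
  have h1 : ∀ e ∈ touch (t.2.1 : Set (V d)), e ∈ opn p ω ∩ F ↔ e ∈ opn p ω' ∩ F := by
    intro e he
    have h2 : ω (Sum.inl e) = ω' (Sum.inl e) := h _ ⟨e, he, rfl⟩
    simp only [opn, Set.mem_inter_iff, Set.mem_ofPred_eq, h2]
  exact propext ⟨Aev_dep_aux p F hr t h1, Aev_dep_aux p F hr t fun e he => (h1 e he).symm⟩

private theorem RadEv_dep (p : ℝ) (F : Set (Sym2 (V d))) (r : ℕ) (y : V d) :
    DependsOn (fun ω => ω ∈ RadEv p F r y) (Sum.inl '' F : Set (Ix d)) :=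
  dep_opn p F fun O => (Sph O r y).Nonempty

private theorem ADev_bound {p : ℝ} (hGam : ∀ (F : Set (Sym2 (V d))) (r : ℕ) (y : V d),
      Pr d (RadEv p F r y) ≤ Gam d p r) (F : Set (Sym2 (V d))) {r m : ℕ} (hr : 1 ≤ r)
    (t : ℕ × Finset (V d) × Finset (V d)) :
    Pr d (Aev p F r m t ∩ Dev p F r t) ≤ Pr d (Aev p F r m t) * (m * Gam d p r) := by
  by_cases hL : t.2.2.card ≤ m
  · have hdis : Disjoint (Sum.inl '' (touch (t.2.1 : Set (V d))) : Set (Ix d))
        (Sum.inl '' (F \ touch (t.2.1 : Set (V d))) : Set (Ix d)) := by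
      rw [Set.disjoint_left]
      rintro _ ⟨e, he, rfl⟩ ⟨e', he', h⟩
      have h1 : e' = e := Sum.inl_injective h
      subst h1
      exact he'.2 he
    have h1 : Aev p F r m t ∩ Dev p F r t =
        ⋃ y ∈ t.2.2, (Aev p F r m t ∩ RadEv p (F \ touch (t.2.1 : Set (V d))) r y) := by
      unfold Dev
      rw [Set.inter_iUnion₂]
    rw [h1]
    calc Pr d (⋃ y ∈ t.2.2, (Aev p F r m t ∩ RadEv p (F \ touch (t.2.1 : Set (V d))) r y))
        ≤ ∑ y ∈ t.2.2, Pr d (Aev p F r m t ∩ RadEv p (F \ touch (t.2.1 : Set (V d))) r y) :=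
          measure_biUnion_finset_le _ _
      _ ≤ ∑ _y ∈ t.2.2, Pr d (Aev p F r m t) * Gam d p r := by
          refine Finset.sum_le_sum fun y _ => ?_
          rw [Pr_indep hdis (measurableSet_Aev p F r m t) (measurableSet_RadEv p _ r y)
            (Aev_dep p F hr t) (RadEv_dep p _ r y)]
          exact mul_le_mul_right (hGam _ r y) _
      _ = Pr d (Aev p F r m t) * (t.2.2.card * Gam d p r) := by
          rw [Finset.sum_const, nsmul_eq_mul]
          ring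
      _ ≤ Pr d (Aev p F r m t) * (m * Gam d p r) := by
          gcongr
  · have h1 : Aev p F r m t = ∅ := by
      ext ω
      simp only [Set.mem_empty_iff_false, iff_false]
      rintro ⟨-, h2, -⟩
      exact hL h2
    rw [h1, Set.empty_inter, measure_empty]
    exact zero_le

private theorem RadEv_cover (p : ℝ) (F : Set (Sym2 (V d))) {r m n : ℕ} (hr : 1 ≤ r)
    (hn : n ≤ r * (m + 1)) :
    RadEv p F (3 * r) (0 : V d) ⊆ ({ω : Om d | n ≤ Nc (opn p ω) (0 : V d)} ∪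
      {ω : Om d | (Cl (opn p ω) (0 : V d)).Infinite}) ∪ ⋃ t, (Aev p F r m t ∩ Dev p F r t) := by
  classical
  intro ω hω
  by_cases hinf : (Cl (opn p ω) (0 : V d)).Infinite
  · exact Or.inl (Or.inr hinf)
  by_cases hc : n ≤ Nc (opn p ω) (0 : V d)
  · exact Or.inl (Or.inl hc)
  right
  have hfin0 : (Cl (opn p ω) (0 : V d)).Finite := Set.not_infinite.1 hinf
  have hsub : Cl (opn p ω ∩ F) (0 : V d) ⊆ Cl (opn p ω) 0 := Cl_mono Set.inter_subset_left 0
  have hfin : (Cl (opn p ω ∩ F) (0 : V d)).Finite := hfin0.subset hsub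
  have hcard : (Cl (opn p ω ∩ F) (0 : V d)).ncard < n :=
    lt_of_le_of_lt (Set.ncard_le_ncard hsub hfin0) (not_le.1 hc)
  obtain ⟨i1, h1, h2, h3⟩ := exists_thin_level hr hn hfin hcard
  have hex : ∃ i, r ≤ i ∧ (Sph (opn p ω ∩ F) i (0 : V d)).ncard ≤ m := ⟨i1, h1, h3⟩
  obtain ⟨h4, h5⟩ := Nat.find_spec hex
  have h6 : Nat.find hex ≤ i1 := Nat.find_min' hex ⟨h1, h3⟩
  have h7 : ∀ j, r ≤ j → j < Nat.find hex → ¬ (Sph (opn p ω ∩ F) j (0 : V d)).ncard ≤ m :=
    fun j hj hji hm => Nat.find_min hex hji ⟨hj, hm⟩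
  generalize Nat.find hex = i at h4 h5 h6 h7
  obtain ⟨y, hy, hy2⟩ := Sph_far (hr.trans h4) (by omega : i + r ≤ 3 * r) hω
  have hBfin : (Bl (opn p ω ∩ F) (i - 1) (0 : V d)).Finite := hfin.subset (Bl_subset_Cl _ _ _)
  have hSfin : (Sph (opn p ω ∩ F) i (0 : V d)).Finite := hfin.subset (Sph_subset_Cl _ _ _)
  refine Set.mem_iUnion.2 ⟨(i, hBfin.toFinset, hSfin.toFinset), ⟨h4, ?_, ?_, ?_, ?_, h7⟩, ?_⟩
  · simp only
    rw [← Set.ncard_eq_toFinset_card _ hSfin]
    exact h5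
  · exact ⟨y, hSfin.mem_toFinset.2 hy⟩
  · exact hBfin.coe_toFinset.symm
  · exact hSfin.coe_toFinset.symm
  · unfold Dev
    refine Set.mem_iUnion₂.2 ⟨y, hSfin.mem_toFinset.2 hy, ?_⟩
    simp only [RadEv, Set.mem_ofPred_eq, Set.Finite.coe_toFinset]
    rw [← Set.inter_sdiff_assoc]
    exact hy2

/-- the Kozma-Nachmias step -/
theorem KN_step {p : ℝ} (hGam : ∀ (F : Set (Sym2 (V d))) (r : ℕ) (y : V d),
      Pr d (RadEv p F r y) ≤ Gam d p r)
    (hth : theta d p = 0) {r m n : ℕ} (hr : 1 ≤ r) (hn : n ≤ r * (m + 1)) :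
    Gam d p (3 * r) ≤ Pr d {ω : Om d | n ≤ Nc (opn p ω) (0 : V d)} + m * (Gam d p r) ^ 2 := by
  refine iSup_le fun F => ?_
  have h1 := measure_mono (μ := Pr d) (RadEv_cover p F (m := m) hr hn)
  refine h1.trans ((measure_union_le _ _).trans ?_)
  refine add_le_add ?_ ?_
  · refine (measure_union_le _ _).trans ?_
    have h2 : Pr d {ω : Om d | (Cl (opn p ω) (0 : V d)).Infinite} = 0 := hth
    rw [h2, add_zero]
  · refine (expl_bound (Pr d) (measurableSet_Aev p F r m) (Aev_disjoint p F r m)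
      (Aev_subset p F r m) (ADev_bound hGam F hr)).trans ?_
    calc Pr d (RadEv p F r 0) * (m * Gam d p r) ≤ Gam d p r * (m * Gam d p r) := by
          gcongr
          exact hGam F r 0
      _ = m * (Gam d p r) ^ 2 := by ring

end Pool.Agent.PB.T10
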