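import Pool.Agent.PB.T.BallDefs

/-!
# PROJECT PB, module T-BallA: `ball_lower`, `ball_count` (plan in T/BallDefs.lean)
-/

set_option autoImplicit false
open MeasureTheory Filter Topology
open scoped ENNReal BigOperators

namespace Pool.Agent.PB.T10

variable {d : ℕ}

private theorem det_loc {W : Type*} {Q Q' : Set (Sym2 W)} {K : Set W} {o : W}
    (h : Q ∩ touch K = Q' ∩ touch K) (hK : Cl Q o = K) :
    Cl Q' o = K ∧ ∀ n z, RchL Q n o z → RchL Q' n o z := by
  have hL : ∀ {a b : W}, a ∈ K → s(a, b) ∈ touch K := fun {a b} ha => ⟨a, Sym2.mem_mk_left a b, ha⟩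
  have ho : o ∈ K := hK ▸ self_mem_Cl Q o
  have hcl : ∀ a ∈ K, ∀ b, s(a, b) ∈ Q → b ∈ K ∧ s(a, b) ∈ Q' := by
    intro a ha b hab
    refine ⟨?_, ?_⟩
    · rw [← hK] at ha ⊢
      exact Cl_closed ha hab
    · have h1 : s(a, b) ∈ Q ∩ touch K := ⟨hab, hL ha⟩
      rw [h] at h1
      exact h1.1
  have hcl' : ∀ a ∈ K, ∀ b, s(a, b) ∈ Q' → b ∈ K := by
    intro a ha b hab
    have h1 : s(a, b) ∈ Q' ∩ touch K := ⟨hab, hL ha⟩
    rw [← h] at h1
    exact (hcl a ha b h1.1).1
  refine ⟨Set.Subset.antisymm ?_ ?_, ?_⟩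
  · intro z hz
    exact Rch.mem_of_closed K ho hcl' hz
  · intro z hz
    rw [← hK] at hz
    have h2 : z ∈ K ∧ Rch Q' o z := Rch.induct (P := fun z => z ∈ K ∧ Rch Q' o z)
      ⟨ho, Rch.refl _ _⟩
      (fun a b _ hab ha => ⟨(hcl a ha.1 b hab).1, ha.2.tail (hcl a ha.1 b hab).2⟩) hz
    exact h2.2
  · intro n z hz
    have h2 : z ∈ K ∧ RchL Q' n o z := by
      induction n generalizing z with
      | zero => exact ⟨(hz : o = z) ▸ ho, hz⟩
      | succ n ih =>
        rcases hz with hz | ⟨w, hw, hwz⟩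
        · exact ⟨(ih z hz).1, Or.inl (ih z hz).2⟩
        · exact ⟨(hcl w (ih w hw).1 z hwz).1,
            Or.inr ⟨w, (ih w hw).2, (hcl w (ih w hw).1 z hwz).2⟩⟩
    exact h2.2

private theorem remK {W : Type*} (K : Set W) (O : Set (Sym2 W)) :
    (Del.ofSet K).rem O = O ∩ (touch K)ᶜ := by
  ext e
  rw [Del.ofSet_rem]
  simp only [touch, Set.mem_ofPred_eq, Set.mem_inter_iff, Set.mem_compl_iff, not_exists, not_and]

private def MEv (p : ℝ) (r : ℕ) (e : Sym2 (V d)) (u : V d) (K : Set (V d)) : Set (Om d) :=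
  {ω | RchL (del1 (opn p ω) e) r 0 u ∧ Cl (del1 (opn p ω) e) 0 = K}

private def REv (p : ℝ) (r : ℕ) (v x : V d) (K : Set (V d)) : Set (Om d) :=
  {ω | RchL ((Del.ofSet K).rem (opn p ω)) r v x}

private theorem meas_MEv (p : ℝ) (r : ℕ) (e : Sym2 (V d)) (u : V d) (K : Set (V d)) :
    MeasurableSet (MEv p r e u K) :=
  (((opn_MES p).del1 e).rchL r 0 u).inter (MVS.eq_set (((opn_MES p).del1 e).cl 0) K)

private theorem meas_REv (p : ℝ) (r : ℕ) (v x : V d) (K : Set (V d)) :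
    MeasurableSet (REv p r v x K) :=
  ((opn_MES p).rem (Del.ofSet K)).rchL r v x

private theorem dep_MEv (p : ℝ) (r : ℕ) (e : Sym2 (V d)) (u : V d) (K : Set (V d)) :
    DependsOn (fun ω : Om d => ω ∈ MEv p r e u K) (Sum.inl '' touch K : Set (Ix d)) := by
  refine dep_opn_of (p := p) (F := touch K)
    (f := fun O => RchL (del1 O e) r 0 u ∧ Cl (del1 O e) 0 = K) ?_
  intro O O' h
  have h1 : del1 O e ∩ touch K = del1 O' e ∩ touch K := by
    ext f
    have h2 : f ∈ O ∩ touch K ↔ f ∈ O' ∩ touch K := by rw [h]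
    simp only [del1, Set.mem_inter_iff, Set.mem_sdiff] at h2 ⊢
    tauto
  constructor
  · rintro ⟨ha, hb⟩
    exact ⟨(det_loc h1 hb).2 _ _ ha, (det_loc h1 hb).1⟩
  · rintro ⟨ha, hb⟩
    exact ⟨(det_loc h1.symm hb).2 _ _ ha, (det_loc h1.symm hb).1⟩

private theorem dep_REv (p : ℝ) (r : ℕ) (v x : V d) (K : Set (V d)) :
    DependsOn (fun ω : Om d => ω ∈ REv p r v x K) (Sum.inl '' (touch K)ᶜ : Set (Ix d)) := by
  refine dep_opn_of (p := p) (F := (touch K)ᶜ)
    (f := fun O => RchL ((Del.ofSet K).rem O) r v x) ?_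
  intro O O' h
  rw [remK, remK, h]

private theorem dep_MR (p : ℝ) (r : ℕ) (e : Sym2 (V d)) (u v x : V d) (K : Set (V d))
    (he : e ∈ touch K) :
    DependsOn (fun ω : Om d => ω ∈ MEv p r e u K ∩ REv p r v x K)
      (Sum.inl '' ({e} : Set (Sym2 (V d)))ᶜ : Set (Ix d)) := by
  refine dep_opn_of (p := p) (F := ({e} : Set (Sym2 (V d)))ᶜ)
    (f := fun O => (RchL (del1 O e) r 0 u ∧ Cl (del1 O e) 0 = K) ∧
      RchL ((Del.ofSet K).rem O) r v x) ?_
  intro O O' h
  have h1 : del1 O e = del1 O' e := h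
  have h2 : (Del.ofSet K).rem O = (Del.ofSet K).rem O' := by
    rw [remK, remK]
    ext f
    have h3 : f ∈ O ∩ ({e} : Set (Sym2 (V d)))ᶜ ↔ f ∈ O' ∩ ({e} : Set (Sym2 (V d)))ᶜ := by rw [h]
    simp only [Set.mem_inter_iff, Set.mem_compl_iff, Set.mem_singleton_iff] at h3 ⊢
    by_cases hf : f = e
    · subst hf
      exact ⟨fun h4 => absurd he h4.2, fun h4 => absurd he h4.2⟩
    · tauto
  rw [h1, h2]

private theorem Pr_AK (p : ℝ) (hp1 : p ≤ 1) (r : ℕ) (e : Sym2 (V d)) (u v x : V d) (K : Set (V d))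
    (hlat : e ∈ (lat d).edgeSet) (he : e ∈ touch K) :
    Pr d ({ω : Om d | e ∈ opn p ω} ∩ (MEv p r e u K ∩ REv p r v x K)) =
      ENNReal.ofReal p * (Pr d (MEv p r e u K) * Pr d (REv p r v x K)) := by
  have h1 : Pr d {ω : Om d | e ∈ opn p ω} = ENNReal.ofReal p := by
    have h1 : {ω : Om d | e ∈ opn p ω} = {ω | ((ω (Sum.inl e) : unitInterval) : ℝ) ≤ p} := by
      ext ω; simp [opn, hlat]
    rw [h1]
    have h2 := Pr_label_le (ι := Ix d) (Sum.inl e) p
    rw [min_eq_left hp1] at h2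
    exact h2
  have h2 : DependsOn (fun ω : Om d => ω ∈ {ω : Om d | e ∈ opn p ω})
      (Sum.inl '' ({e} : Set (Sym2 (V d))) : Set (Ix d)) := by
    refine dep_opn_of (p := p) (F := ({e} : Set (Sym2 (V d)))) (f := fun O => e ∈ O) ?_
    intro O O' h
    have h3 : e ∈ O ∩ ({e} : Set (Sym2 (V d))) ↔ e ∈ O' ∩ ({e} : Set (Sym2 (V d))) := by rw [h]
    simpa using h3
  have hd1 : Disjoint (Sum.inl '' ({e} : Set (Sym2 (V d))) : Set (Ix d))
      (Sum.inl '' ({e} : Set (Sym2 (V d)))ᶜ) :=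
    (Set.disjoint_image_iff Sum.inl_injective).2 disjoint_compl_right
  have hd2 : Disjoint (Sum.inl '' (touch K) : Set (Ix d)) (Sum.inl '' (touch K)ᶜ) :=
    (Set.disjoint_image_iff Sum.inl_injective).2 disjoint_compl_right
  rw [Pr_indep hd1 (opn_MES p e) ((meas_MEv p r e u K).inter (meas_REv p r v x K)) h2
    (dep_MR p r e u v x K he), h1,
    Pr_indep hd2 (meas_MEv p r e u K) (meas_REv p r v x K) (dep_MEv p r e u K) (dep_REv p r v x K)]

theorem ball_lower (p : ℝ) (hp0 : 0 ≤ p) (hp1 : p ≤ 1) (r : ℕ) (u v x : V d) :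
    ∑' K : Finset (V d), (if v ∈ K then 0 else
      J p (v - u) * Pr d (AuK p r u K) * kapK p r K v x) ≤
    Pr d {ω | (u, v) ∈ sepPairs (opn p ω) r (0 : V d) x} := by
  classical
  have _ := hp0
  by_cases hadj : l1 (v - u) = 1
  swap
  · have hJ : J p (v - u) = 0 := by
      unfold J
      rw [if_neg hadj]
    simp [hJ]
  have hJ : J p (v - u) = ENNReal.ofReal p := by
    unfold J
    rw [if_pos hadj]
  have hlat : s(u, v) ∈ (lat d).edgeSet := hadj
  let B : Finset (V d) → Set (Om d) := fun K => if v ∈ K then ∅ else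
    {ω : Om d | s(u, v) ∈ opn p ω} ∩ (MEv p r s(u, v) u K ∩ REv p r v x K)
  have hB : ∀ K, MeasurableSet (B K) := by
    intro K
    by_cases hv : v ∈ K
    · simp only [B, if_pos hv]
      exact MeasurableSet.empty
    · simp only [B, if_neg hv]
      exact (opn_MES p _).inter ((meas_MEv p r _ u K).inter (meas_REv p r v x K))
  have hterm : ∀ K : Finset (V d), (if v ∈ K then 0 else
      J p (v - u) * Pr d (AuK p r u K) * kapK p r K v x) ≤ Pr d (B K) := by
    intro K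
    by_cases hv : v ∈ K
    · rw [if_pos hv]
      exact bot_le
    rw [if_neg hv]
    simp only [B, if_neg hv]
    by_cases hu : u ∈ K
    · have ht : s(u, v) ∈ touch (K : Set (V d)) := ⟨u, Sym2.mem_mk_left u v, hu⟩
      rw [Pr_AK p hp1 r _ u v x K hlat ht, hJ, mul_assoc]
      gcongr
      · intro ω hω
        have hne : s(u, v) ∉ opn p ω := by
          intro he
          have h1 : v ∈ Cl (opn p ω) 0 := Cl_closed (by rw [hω.2]; exact hu) he
          rw [hω.2] at h1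
          exact hv h1
        change RchL (del1 (opn p ω) _) r 0 u ∧ Cl (del1 (opn p ω) _) 0 = _
        rw [del1_of_notMem hne]
        exact hω
      · exact le_rfl
    · have hE : AuK p r u K = ∅ := by
        ext ω
        simp only [Set.mem_empty_iff_false, iff_false]
        rintro ⟨h1, h2⟩
        have h3 : u ∈ Cl (opn p ω) 0 := h1.rch
        rw [h2] at h3
        exact hu h3
      rw [hE, measure_empty, mul_zero, zero_mul]
      exact bot_le
  have hdis : Pairwise (Function.onFun Disjoint B) := by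
    intro K K' hKK
    rw [Function.onFun, Set.disjoint_left]
    intro ω h1 h2
    apply hKK
    by_cases hv : v ∈ K
    · simp only [B, if_pos hv] at h1
      exact h1.elim
    by_cases hv' : v ∈ K'
    · simp only [B, if_pos hv'] at h2
      exact h2.elim
    simp only [B, if_neg hv] at h1
    simp only [B, if_neg hv'] at h2
    exact Finset.coe_injective (h1.2.1.2.symm.trans h2.2.1.2)
  calc ∑' K : Finset (V d), (if v ∈ K then 0 else
      J p (v - u) * Pr d (AuK p r u K) * kapK p r K v x)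
      ≤ ∑' K : Finset (V d), Pr d (B K) := ENNReal.tsum_le_tsum hterm
    _ = Pr d (⋃ K, B K) := (measure_iUnion hdis hB).symm
    _ ≤ Pr d {ω | (u, v) ∈ sepPairs (opn p ω) r (0 : V d) x} := by
        refine measure_mono ?_
        intro ω hω
        obtain ⟨K, hK⟩ := Set.mem_iUnion.1 hω
        by_cases hv : v ∈ K
        · simp only [B, if_pos hv] at hK
          exact hK.elim
        simp only [B, if_neg hv] at hK
        obtain ⟨h1, ⟨h2, h3⟩, h4⟩ := hK
        refine ⟨h1, h2, ?_, ?_⟩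
        · change v ∉ Cl _ _
          rw [h3]
          exact hv
        · change RchL ((Del.ofSet (Cl (del1 (opn p ω) s(u, v)) 0)).rem (opn p ω)) r v x
          rw [h3]
          exact h4

private theorem meas_sep (p : ℝ) (r : ℕ) (x : V d) (q : V d × V d) :
    MeasurableSet {ω : Om d | q ∈ sepPairs (opn p ω) r (0 : V d) x} := by
  have hC : MVS (fun ω : Om d => Cl (del1 (opn p ω) s(q.1, q.2)) 0) := ((opn_MES p).del1 _).cl 0
  have hS : MES (fun ω : Om d =>
      (Del.ofSet (Cl (del1 (opn p ω) s(q.1, q.2)) 0)).rem (opn p ω)) := by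
    intro f
    have h1 : {ω : Om d | f ∈ (Del.ofSet (Cl (del1 (opn p ω) s(q.1, q.2)) 0)).rem (opn p ω)} =
        {ω : Om d | f ∈ opn p ω} ∩ ⋂ z : V d, ⋂ _ : z ∈ f,
          {ω : Om d | z ∈ Cl (del1 (opn p ω) s(q.1, q.2)) 0}ᶜ := by
      ext ω
      simp only [Del.ofSet_rem, Set.mem_ofPred_eq, Set.mem_inter_iff, Set.mem_iInter,
        Set.mem_compl_iff]
    rw [h1]
    exact (opn_MES p f).inter (MeasurableSet.iInter fun z => MeasurableSet.iInter fun _ =>
      (hC z).compl)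
  exact (opn_MES p _).inter ((((opn_MES p).del1 _).rchL r 0 q.1).inter
    ((hC q.2).compl.inter (hS.rchL r q.2 x)))

theorem ball_count (p : ℝ) (r : ℕ) (x : V d) :
    ∑' u : V d, ∑' v : V d, Pr d {ω | (u, v) ∈ sepPairs (opn p ω) r (0 : V d) x} ≤
      (2 * r + 1 : ℕ) * kap p (2 * r + 1) x := by
  classical
  have h1 : ∑' u : V d, ∑' v : V d, Pr d {ω | (u, v) ∈ sepPairs (opn p ω) r (0 : V d) x} =
      ∑' q : V d × V d, Pr d {ω | q ∈ sepPairs (opn p ω) r (0 : V d) x} :=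
    (ENNReal.tsum_prod (f := fun u v =>
      Pr d {ω | (u, v) ∈ sepPairs (opn p ω) r (0 : V d) x})).symm
  have h2 : ∀ q : V d × V d, Pr d {ω | q ∈ sepPairs (opn p ω) r (0 : V d) x} =
      ∫⁻ ω, {ω | q ∈ sepPairs (opn p ω) r (0 : V d) x}.indicator 1 ω ∂Pr d := fun q =>
    (lintegral_indicator_one (meas_sep p r x q)).symm
  rw [h1, tsum_congr h2, ← lintegral_tsum
    (fun q => (measurable_one.indicator (meas_sep p r x q)).aemeasurable)]
  have h3 : ∀ ω : Om d, ∑' q : V d × V d,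
      {ω | q ∈ sepPairs (opn p ω) r (0 : V d) x}.indicator (1 : Om d → ℝ≥0∞) ω ≤
      {ω : Om d | RchL (opn p ω) (2 * r + 1) 0 x}.indicator (fun _ => ((2 * r + 1 : ℕ) : ℝ≥0∞)) ω := by
    intro ω
    have h4 : ∑' q : V d × V d,
        {ω | q ∈ sepPairs (opn p ω) r (0 : V d) x}.indicator (1 : Om d → ℝ≥0∞) ω =
        ((sepPairs (opn p ω) r (0 : V d) x).encard : ℝ≥0∞) := by
      rw [← ENNReal.tsum_set_one, tsum_subtype (sepPairs (opn p ω) r (0 : V d) x)
        (fun _ => (1 : ℝ≥0∞))]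
      refine tsum_congr fun q => ?_
      by_cases hq : q ∈ sepPairs (opn p ω) r (0 : V d) x
      · rw [Set.indicator_of_mem (s := {ω | q ∈ sepPairs (opn p ω) r (0 : V d) x}) hq,
          Set.indicator_of_mem hq]
        rfl
      · rw [Set.indicator_of_notMem (s := {ω | q ∈ sepPairs (opn p ω) r (0 : V d) x}) hq,
          Set.indicator_of_notMem hq]
    rw [h4]
    by_cases hne : (sepPairs (opn p ω) r (0 : V d) x).Nonempty
    · have h5 : ω ∈ {ω : Om d | RchL (opn p ω) (2 * r + 1) 0 x} := sep_len hne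
      rw [Set.indicator_of_mem h5]
      have h6 := card_sep (opn p ω) r (0 : V d) x
      calc ((sepPairs (opn p ω) r (0 : V d) x).encard : ℝ≥0∞)
          ≤ (((2 * r + 1 : ℕ) : ℕ∞) : ℝ≥0∞) := by exact_mod_cast h6
        _ = ((2 * r + 1 : ℕ) : ℝ≥0∞) := by simp
    · rw [Set.not_nonempty_iff_eq_empty.1 hne]
      simp
  calc ∫⁻ ω, ∑' q : V d × V d,
      {ω | q ∈ sepPairs (opn p ω) r (0 : V d) x}.indicator (1 : Om d → ℝ≥0∞) ω ∂Pr d
      ≤ ∫⁻ ω, {ω : Om d | RchL (opn p ω) (2 * r + 1) 0 x}.indicator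
          (fun _ => ((2 * r + 1 : ℕ) : ℝ≥0∞)) ω ∂Pr d := lintegral_mono h3
    _ = (2 * r + 1 : ℕ) * kap p (2 * r + 1) x :=
        lintegral_indicator_const ((opn_MES p).rchL _ 0 x) _

end Pool.Agent.PB.T10
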