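import Pool.Agent.PB.T.Defs
import Pool.Agent.PB.T.Tree

/-!
# PROJECT PB, T/BallDefs: definitions and plan for growth of intrinsic balls (Section 10.3)

Notation: `O = opn p ω`, `e = s(u,v)`, `K` a finite set of vertices, `O^K = (Del.ofSet K).rem O`.
`AuK u K = {ω | RchL O r 0 u ∧ Cl O 0 = K}`, `kapK p K v x = Pr {ω | RchL (O^K) r v x}`.

PLAN.
* `ball_lower`: for `v ∉ K`, `u, v` adjacent:
  `{e ∈ O} ∩ {RchL (del1 O e) r 0 u ∧ Cl (del1 O e) 0 = K} ∩ {RchL (O^K) r v x}` is contained in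
  `{(u,v) ∈ sepPairs O r 0 x}` and for different `K` these are disjoint; the three events are
  independent: labels of `{e}`; of `touch K \ {e}`; of `(touch K)ᶜ` (if `Cl (del1 O e) 0 = K` the
  configuration of edges touching `K` other than `e` determines this; locality: if `O, O'` agree on
  `touch K \ {e}` then `Cl (del1 O e) 0 = K ↔ Cl (del1 O' e) 0 = K` and then also the `RchL` part
  (all vertices used are in `K`)). The middle event contains `AuK u K` when `v ∉ K`, `u ∈ K`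
  (`e ∉ O` then) and is empty-compatible otherwise: if `u ∉ K`, `AuK u K = ∅`. `P(e ∈ O) = p`
  (`J p (v - u) = ofReal p` when adjacent, `0` otherwise, in which case the inequality is trivial).
  So `Σ_K [v ∉ K] J p (v-u) P(AuK u K) kapK p K v x ≤ Pr {ω | (u,v) ∈ sepPairs O r 0 x}`.
* `ball_count`: `Σ_{u,v} Pr {(u,v) ∈ sepPairs O r 0 x} = ∫⁻ Σ_{q} 1 ≤ (2r+1) Pr {RchL O (2r+1) 0 x}`
  (`lintegral_tsum`, `ENNReal.tsum` of an indicator = encard (`ENNReal.tsum_set_one` /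
  `tsum_one_eq..`), `card_sep`, `sep_len`).
* `G_split`: for `v ∉ K`: `G(r) ≤ Σ_x kapK p K v x + G(r) Σ_{z ∈ K} τ(z - v)` (`detour`, BK with
  `dOcc_of_sets`, `bk_Pr`, translation invariance, sum over `x`); for `v ∈ K`:
  `G(r) ≤ G(r) Σ_{z ∈ K} τ(z-v)` since `τ(0) = 1`.
* `tree_bd`: `Pr {RchL O r 0 u ∧ Rch O 0 z} ≤ Σ_w κ_r(w) τ(u-w) τ(z-w)` (`tree_len`, BK).
* `ball_step`: sum everything:
  `Σ_{u,v,K} J(v-u) P(AuK u K) G(r) ≤ (2r+1) G(2r+1) + G(r) Σ_{u,v,K} J(v-u) P(AuK u K) Σ_{z∈K} τ(z-v)`;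
  left side `= nrm J * G(r)^2` (clusters are finite a.s., `theta = 0`); the last sum is
  `≤ Σ_w κ_r(w) Σ_{u,v,z} τ(u-w) J(v-u) τ(z-v) τ(z-w) = G(r) * conv (J p) (cpow tau 3) 0` (all functions
  even) `≤ G(r) * sm d p 3`.
-/

set_option autoImplicit false
open MeasureTheory Filter Topology
open scoped ENNReal BigOperators

namespace Pool.Agent.PB.T10

variable {d : ℕ}

/-- translation invariance, as used here -/
structure Trans (d : ℕ) (p : ℝ) : Prop where
  rchL : ∀ (r : ℕ) (x y : V d), Pr d {ω | RchL (opn p ω) r x y} = kap p r (y - x)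
  rch : ∀ x y : V d, Pr d {ω | Rch (opn p ω) x y} = tau p (y - x)
  even : ∀ x : V d, tau (d := d) p (-x) = tau p x

noncomputable def kapK (p : ℝ) (r : ℕ) (K : Finset (V d)) (v x : V d) : ℝ≥0∞ :=
  Pr d {ω | RchL ((Del.ofSet (K : Set (V d))).rem (opn p ω)) r v x}

def AuK (p : ℝ) (r : ℕ) (u : V d) (K : Finset (V d)) : Set (Om d) :=
  {ω | RchL (opn p ω) r 0 u ∧ Cl (opn p ω) 0 = (K : Set (V d))}

end Pool.Agent.PB.T10
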