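import Pool.Agent.PB.T.Defs

/-!
# PROJECT PB, module T-ThinA: thinning (this file: everything up to `thin`; the plan of `Gam_thin`, `kap_thin` is for T/Thin.lean) (Section 10.2)

PLAN.
* `label_step`: if `W` is measurable and does not depend on the label `i`
  (`DependsOn (fun ω => ω ∈ W) {i}ᶜ`), then `P(W ∩ {ω_i ≤ a}) = min(a,1) P(W)`
  (`Pr_indep`, `Pr_label_le` of P/Mix).
* `thin_one`: `𝒲` measurable set of edge sets (σ-algebra on `Set (Sym2 (V d))`: `measurable_opn`),
  `S` a finite set of edges with `S ⊆ O` for all `O ∈ 𝒲`. Then for `0 < p' ≤ p ≤ 1`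
  `P(O_p ∈ 𝒲, ω_e ≤ p' for all e ∈ S) = (p'/p)^{|S|} P(O_p ∈ 𝒲)`.
  Induction on `S` (for fixed `𝒲`: statement for every subset `S' ⊆ S`, or generalize over sets
  `{e | e ∈ S'}`): let `e ∈ S`, `e ∉ S'`. All edges of `S` are edges of `lat d` unless
  `{O_p ∈ 𝒲}` is empty. `{O_p ∈ 𝒲, ω_f ≤ p' (f ∈ S')} = {ω_e ≤ p} ∩ W1` with
  `W1 = {ω | insert e (opn p ω) ∈ 𝒲, ω_f ≤ p' (f ∈ S')}` independent of the label of `e`
  (since `O ∈ 𝒲` implies `e ∈ O`); similarly with `ω_e ≤ p'` added: `{ω_e ≤ p'} ∩ W1`.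
  So the first has probability `p P(W1)`, the second `p' P(W1) = (p'/p) (p P(W1))`.
* `thin`: `W i = {ω | cond i at level p, and not cond j for j < i}` where
  `cond i` at level `p`: `(S i : Set _) ⊆ opn p ω ∧ opn p ω ∈ D i`. Disjoint, union =
  `{∃ i, cond i}`. `W i ∩ {ω_e ≤ p' ∀ e ∈ S i}` is contained in `{cond i at level p'}`
  (`opn p' ω ⊆ opn p ω`, `D i` decreasing), so by `thin_one`
  `P(∃ i cond i at level p') ≥ Σ_i P(W i ∩ {..}) = Σ_i (p'/p)^{|S i|} P(W i) ≥ (p'/p)^r P(∃ i cond i at p)`.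
* `Gam_thin`: for fixed `F`; enumerate (`Countable`, `exists_surjective_nat` or `Encodable`; the
  index type is nonempty) the pairs `(S, z)`, `S : Finset` of edges with `S ⊆ F`, `S.card ≤ r`,
  `RchL S r 0 z`, `D_(S,z) = {O | ∀ m < r, ¬ RchL (O ∩ F) m 0 z}` (decreasing). `RadEv p F r 0` =
  `∃ (S,z)`, `S ⊆ opn p ω ∧ opn p ω ∈ D`: `←` is clear (`RchL.mono`), `→` by `exists_rchL_finset`.
  (It is convenient to prove `thin` for an arbitrary countable index type.)
* `kap_thin`: pairs replaced by `S` only, `D = univ`.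
* `exists_rchL_finset`: induction on `n`.
-/

set_option autoImplicit false
open MeasureTheory Filter Topology
open scoped ENNReal BigOperators

namespace Pool.Agent.PB.T10

variable {d : ℕ}

private theorem rchL_mono' {W : Type*} {O O' : Set (Sym2 W)} (hO : O ⊆ O') {n : ℕ} {x y : W}
    (h : RchL O n x y) : RchL O' n x y := by
  induction n generalizing y with
  | zero => exact h
  | succ n ih =>
    rcases h with h1 | ⟨z, hz, hzy⟩
    · exact Or.inl (ih h1)
    · exact Or.inr ⟨z, ih hz, hO hzy⟩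

theorem exists_rchL_finset {W : Type*} {O : Set (Sym2 W)} {n : ℕ} {x y : W} (h : RchL O n x y) :
    ∃ S : Finset (Sym2 W), (S : Set (Sym2 W)) ⊆ O ∧ S.card ≤ n ∧
      RchL (S : Set (Sym2 W)) n x y := by
  classical
  induction n generalizing y with
  | zero => exact ⟨∅, by simp, by simp, h⟩
  | succ n ih =>
    rcases h with h1 | ⟨z, hz, hzy⟩
    · obtain ⟨S, h2, h3, h4⟩ := ih h1
      exact ⟨S, h2, h3.trans (Nat.le_succ n), Or.inl h4⟩
    · obtain ⟨S, h2, h3, h4⟩ := ih hz
      refine ⟨insert s(z, y) S, ?_, (Finset.card_insert_le _ _).trans (Nat.succ_le_succ h3),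
        Or.inr ⟨z, ?_, ?_⟩⟩
      · intro e he
        rw [Finset.coe_insert] at he
        rcases he with rfl | he
        · exact hzy
        · exact h2 he
      · exact rchL_mono' (by rw [Finset.coe_insert]; exact Set.subset_insert _ _) h4
      · rw [Finset.coe_insert]
        exact Set.mem_insert _ _

theorem label_step {ι : Type*} {W : Set (ι → unitInterval)} (mW : MeasurableSet W) (i : ι)
    (hW : DependsOn (fun ω => ω ∈ W) ({i}ᶜ : Set ι)) (a : ℝ) :
    PrI ι (W ∩ {ω | ((ω i : unitInterval) : ℝ) ≤ a}) = ENNReal.ofReal (min a 1) * PrI ι W := by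
  have h1 : DependsOn (fun ω : ι → unitInterval => ω ∈ {ω : ι → unitInterval |
      ((ω i : unitInterval) : ℝ) ≤ a}) ({i} : Set ι) := by
    intro x y hxy
    have h2 : x i = y i := hxy i rfl
    simp only [Set.mem_ofPred_eq, h2]
  rw [Pr_inter_indep (S := ({i}ᶜ : Set ι)) (T := ({i} : Set ι)) disjoint_compl_left mW (meas_le i a)
    hW h1, Pr_label_le, mul_comm]

theorem thin_one {p p' : ℝ} (hp' : 0 < p') (hpp : p' ≤ p) (hp1 : p ≤ 1)
    {𝒲 : Set (Set (Sym2 (V d)))} (m𝒲 : MeasurableSet 𝒲) (S : Finset (Sym2 (V d)))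
    (hS : ∀ O ∈ 𝒲, (S : Set (Sym2 (V d))) ⊆ O) :
    Pr d {ω | opn p ω ∈ 𝒲 ∧ ∀ e ∈ S, ((ω (Sum.inl e) : unitInterval) : ℝ) ≤ p'} =
      ENNReal.ofReal ((p' / p) ^ S.card) * Pr d {ω | opn p ω ∈ 𝒲} := by
  classical
  have hp : 0 < p := hp'.trans_le hpp
  induction S using Finset.induction_on with
  | empty => simp
  | insert e S he ih =>
    have hS' : ∀ O ∈ 𝒲, (S : Set (Sym2 (V d))) ⊆ O := fun O hO f hf =>
      hS O hO (by rw [Finset.coe_insert]; exact Or.inr hf)
    have heO : ∀ O ∈ 𝒲, e ∈ O := fun O hO => hS O hO (by rw [Finset.coe_insert]; exact Or.inl rfl)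
    by_cases hed : e ∈ (lat d).edgeSet
    · let W1 : Set (Om d) := {ω | insert e (opn p ω) ∈ 𝒲 ∧
        ∀ f ∈ S, ((ω (Sum.inl f) : unitInterval) : ℝ) ≤ p'}
      have mW1 : MeasurableSet W1 := by
        have h1 : Measurable fun ω : Om d => insert e (opn p ω) := by
          have h2 : MES (fun ω : Om d => insert e (opn p ω)) := by
            have h3 := (MES.const (Ω := Om d) ({e} : Set (Sym2 (V d)))).union (opn_MES (d := d) p)
            exact h3
          exact MES_iff_measurable.1 h2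
        have h4 : MeasurableSet {ω : Om d | ∀ f ∈ S, ((ω (Sum.inl f) : unitInterval) : ℝ) ≤ p'} := by
          have h5 : {ω : Om d | ∀ f ∈ S, ((ω (Sum.inl f) : unitInterval) : ℝ) ≤ p'} =
              ⋂ f ∈ S, {ω : Om d | ((ω (Sum.inl f) : unitInterval) : ℝ) ≤ p'} := by
            ext ω
            simp
          rw [h5]
          exact Finset.measurableSet_biInter _ fun f _ => meas_le (Sum.inl f) p'
        exact (h1 m𝒲).inter h4
      have hdep : DependsOn (fun ω : Om d => ω ∈ W1) ({Sum.inl e}ᶜ : Set (Ix d)) := by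
        intro ω ω' h
        have h1 : insert e (opn p ω) = insert e (opn p ω') := by
          ext f
          by_cases hf : f = e
          · simp [hf]
          · have h2 : ω (Sum.inl f) = ω' (Sum.inl f) := h (Sum.inl f) (by
              simp only [Set.mem_compl_iff, Set.mem_singleton_iff]
              intro h3
              exact hf (Sum.inl_injective h3))
            simp only [Set.mem_insert_iff, hf, false_or, opn, Set.mem_ofPred_eq, h2]
        have h4 : (∀ f ∈ S, ((ω (Sum.inl f) : unitInterval) : ℝ) ≤ p') ↔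
            ∀ f ∈ S, ((ω' (Sum.inl f) : unitInterval) : ℝ) ≤ p' := by
          refine forall₂_congr fun f hf => ?_
          have h2 : ω (Sum.inl f) = ω' (Sum.inl f) := h (Sum.inl f) (by
            simp only [Set.mem_compl_iff, Set.mem_singleton_iff]
            intro h3
            exact he (Sum.inl_injective h3 ▸ hf))
          rw [h2]
        simp only [W1, Set.mem_ofPred_eq, h1, h4]
      have hins : ∀ ω : Om d, e ∈ opn p ω → insert e (opn p ω) = opn p ω := fun ω h =>
        Set.insert_eq_of_mem h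
      have e1 : {ω : Om d | opn p ω ∈ 𝒲 ∧ ∀ f ∈ S, ((ω (Sum.inl f) : unitInterval) : ℝ) ≤ p'} =
          W1 ∩ {ω | ((ω (Sum.inl e) : unitInterval) : ℝ) ≤ p} := by
        ext ω
        simp only [W1, Set.mem_inter_iff, Set.mem_ofPred_eq]
        constructor
        · rintro ⟨h1, h2⟩
          have h3 := heO _ h1
          rw [hins ω h3]
          exact ⟨⟨h1, h2⟩, h3.2⟩
        · rintro ⟨⟨h1, h2⟩, h3⟩
          rw [hins ω ⟨hed, h3⟩] at h1
          exact ⟨h1, h2⟩
      have e2 : {ω : Om d | opn p ω ∈ 𝒲 ∧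
          ∀ f ∈ insert e S, ((ω (Sum.inl f) : unitInterval) : ℝ) ≤ p'} =
          W1 ∩ {ω | ((ω (Sum.inl e) : unitInterval) : ℝ) ≤ p'} := by
        ext ω
        simp only [W1, Set.mem_inter_iff, Set.mem_ofPred_eq]
        constructor
        · rintro ⟨h1, h2⟩
          have h3 := heO _ h1
          rw [hins ω h3]
          exact ⟨⟨h1, fun f hf => h2 f (Finset.mem_insert_of_mem hf)⟩,
            h2 e (Finset.mem_insert_self _ _)⟩
        · rintro ⟨⟨h1, h2⟩, h3⟩
          rw [hins ω ⟨hed, h3.trans hpp⟩] at h1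
          refine ⟨h1, fun f hf => ?_⟩
          rcases Finset.mem_insert.1 hf with rfl | hf
          · exact h3
          · exact h2 f hf
      have ih' := ih hS'
      rw [Pr_eq] at ih' ⊢
      rw [e2, label_step mW1 _ hdep p', min_eq_left (hpp.trans hp1)]
      rw [e1, label_step mW1 _ hdep p, min_eq_left hp1] at ih'
      have h5 : ENNReal.ofReal p' = ENNReal.ofReal (p' / p) * ENNReal.ofReal p := by
        rw [← ENNReal.ofReal_mul (by positivity), div_mul_cancel₀ _ hp.ne']
      rw [h5, mul_assoc, ih', ← mul_assoc, ← ENNReal.ofReal_mul (by positivity),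
        Finset.card_insert_of_notMem he, pow_succ]
      congr 2
      ring
    · have h1 : {ω : Om d | opn p ω ∈ 𝒲} = ∅ := by
        ext ω
        simp only [Set.mem_ofPred_eq, Set.mem_empty_iff_false, iff_false]
        intro h
        exact hed (heO _ h).1
      have h2 : {ω : Om d | opn p ω ∈ 𝒲 ∧
          ∀ f ∈ insert e S, ((ω (Sum.inl f) : unitInterval) : ℝ) ≤ p'} = ∅ := by
        ext ω
        simp only [Set.mem_ofPred_eq, Set.mem_empty_iff_false, iff_false]
        rintro ⟨h, -⟩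
        exact hed (heO _ h).1
      rw [h1, h2, measure_empty, MulZeroClass.mul_zero]

/-- thinning, countable index type -/
theorem thin {T : Type*} [Countable T] {p p' : ℝ} (hp' : 0 < p') (hpp : p' ≤ p) (hp1 : p ≤ 1)
    {r : ℕ} (S : T → Finset (Sym2 (V d))) (hS : ∀ i, (S i).card ≤ r)
    (D : T → Set (Set (Sym2 (V d)))) (mD : ∀ i, MeasurableSet (D i))
    (hD : ∀ i O O', O' ⊆ O → O ∈ D i → O' ∈ D i) :
    Pr d {ω | ∃ i, (S i : Set (Sym2 (V d))) ⊆ opn p ω ∧ opn p ω ∈ D i} ≤
      ENNReal.ofReal ((p / p') ^ r) *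
        Pr d {ω | ∃ i, (S i : Set (Sym2 (V d))) ⊆ opn p' ω ∧ opn p' ω ∈ D i} := by
  classical
  have hp : 0 < p := hp'.trans_le hpp
  obtain ⟨g, hg⟩ := exists_injective_nat T
  let cnd : T → Set (Sym2 (V d)) → Prop := fun i O => (S i : Set (Sym2 (V d))) ⊆ O ∧ O ∈ D i
  let W : T → Set (Set (Sym2 (V d))) := fun i => {O | cnd i O ∧ ∀ j, g j < g i → ¬ cnd j O}
  have mc : ∀ i, MeasurableSet {O : Set (Sym2 (V d)) | cnd i O} := by
    intro i
    have h1 : {O : Set (Sym2 (V d)) | cnd i O} =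
        (⋂ e ∈ S i, {O : Set (Sym2 (V d)) | e ∈ O}) ∩ D i := by
      ext O
      simp only [cnd, Set.mem_ofPred_eq, Set.mem_inter_iff, Set.mem_iInter]
      exact Iff.rfl
    rw [h1]
    exact (Finset.measurableSet_biInter _ fun e _ => MES_id e).inter (mD i)
  have mW : ∀ i, MeasurableSet (W i) := by
    intro i
    have h1 : W i = {O | cnd i O} ∩ ⋂ j, ⋂ (_ : g j < g i), {O | cnd j O}ᶜ := by
      ext O
      simp only [W, Set.mem_ofPred_eq, Set.mem_inter_iff, Set.mem_iInter, Set.mem_compl_iff]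
    rw [h1]
    exact (mc i).inter (MeasurableSet.iInter fun j => MeasurableSet.iInter fun _ => (mc j).compl)
  have hdis : ∀ i j, i ≠ j → ∀ O, O ∈ W i → O ∈ W j → False := by
    intro i j hij O hi hj
    rcases lt_trichotomy (g i) (g j) with h | h | h
    · exact hj.2 i h hi.1
    · exact hij (hg h)
    · exact hi.2 j h hj.1
  have hun : ∀ O, (∃ i, cnd i O) → ∃ i, O ∈ W i := by
    rintro O ⟨i0, hi0⟩
    have hex : ∃ n, ∃ i, g i = n ∧ cnd i O := ⟨g i0, i0, rfl, hi0⟩
    obtain ⟨i, hi, hci⟩ := Nat.find_spec hex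
    refine ⟨i, hci, fun j hj hcj => ?_⟩
    rw [hi] at hj
    exact Nat.find_min hex hj ⟨j, rfl, hcj⟩
  have e1 : {ω : Om d | ∃ i, (S i : Set (Sym2 (V d))) ⊆ opn p ω ∧ opn p ω ∈ D i} =
      ⋃ i, {ω : Om d | opn p ω ∈ W i} := by
    ext ω
    simp only [Set.mem_ofPred_eq, Set.mem_iUnion]
    exact ⟨fun h => hun _ h, fun ⟨i, hi⟩ => ⟨i, hi.1⟩⟩
  have hpd : Pairwise (Function.onFun Disjoint fun i => {ω : Om d | opn p ω ∈ W i}) := by
    intro i j hij
    rw [Function.onFun, Set.disjoint_left]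
    exact fun ω h1 h2 => hdis i j hij _ h1 h2
  let X : T → Set (Om d) := fun i => {ω | opn p ω ∈ W i ∧
    ∀ e ∈ S i, ((ω (Sum.inl e) : unitInterval) : ℝ) ≤ p'}
  have mX : ∀ i, MeasurableSet (X i) := by
    intro i
    have h5 : X i = {ω : Om d | opn p ω ∈ W i} ∩
        ⋂ f ∈ S i, {ω : Om d | ((ω (Sum.inl f) : unitInterval) : ℝ) ≤ p'} := by
      ext ω
      simp [X]
    rw [h5]
    exact (measurable_opn p (mW i)).inter
      (Finset.measurableSet_biInter _ fun f _ => meas_le (Sum.inl f) p')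
  have hXd : Pairwise (Function.onFun Disjoint X) := by
    intro i j hij
    rw [Function.onFun, Set.disjoint_left]
    exact fun ω h1 h2 => hdis i j hij _ h1.1 h2.1
  have hstep : ∀ i, Pr d {ω | opn p ω ∈ W i} ≤ ENNReal.ofReal ((p / p') ^ r) * Pr d (X i) := by
    intro i
    have h1 := thin_one hp' hpp hp1 (mW i) (S i) fun O hO => hO.1.1
    have h2 : Pr d {ω | opn p ω ∈ W i} = ENNReal.ofReal ((p / p') ^ (S i).card) * Pr d (X i) := by
      change _ = _ * Pr d {ω | opn p ω ∈ W i ∧ ∀ e ∈ S i, ((ω (Sum.inl e) : unitInterval) : ℝ) ≤ p'}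
      rw [h1, ← mul_assoc, ← ENNReal.ofReal_mul (by positivity), ← mul_pow]
      have h3 : p / p' * (p' / p) = 1 := by
        field_simp
      rw [h3, one_pow, ENNReal.ofReal_one, one_mul]
    rw [h2]
    gcongr
    · rw [one_le_div hp']
      exact hpp
    · exact hS i
  calc Pr d {ω : Om d | ∃ i, (S i : Set (Sym2 (V d))) ⊆ opn p ω ∧ opn p ω ∈ D i}
      = ∑' i, Pr d {ω : Om d | opn p ω ∈ W i} := by
        rw [e1, measure_iUnion hpd fun i => measurable_opn p (mW i)]
    _ ≤ ∑' i, ENNReal.ofReal ((p / p') ^ r) * Pr d (X i) := ENNReal.tsum_le_tsum hstep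
    _ = ENNReal.ofReal ((p / p') ^ r) * Pr d (⋃ i, X i) := by
        rw [ENNReal.tsum_mul_left, measure_iUnion hXd mX]
    _ ≤ _ := by
        gcongr
        rw [Set.iUnion_subset_iff]
        rintro i ω ⟨h1, h2⟩
        refine ⟨i, fun e he => ⟨(h1.1.1 he).1, h2 e he⟩, ?_⟩
        exact hD i _ _ (opn_mono hpp ω) h1.1.2

end Pool.Agent.PB.T10
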